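import Pool.Agent.helper80.SV.Spec2

/-!
# Project sv: (MP_b5a345_ag): third specification (all line bundles, `d ∈ ℤ^k`)
-/

set_option autoImplicit false

namespace Pool.Agent.SV

open MvPolynomial Module

/-- E1K (spec of the proof: helper96). Four or more factors, one factor `P^1`, degree `1` on all other
factors: not special as soon as the degree on `P^1` is large. -/
def E1K_stmt : Prop :=
  ∀ (k : ℕ) (n : Fin k → ℕ), 4 ≤ k → (∀ i, 1 ≤ n i) → ∀ l : Fin k, n l = 1 →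
    ∃ e₀ : ℕ, ∀ d : Fin k → ℕ, (∀ i, i ≠ l → d i = 1) → e₀ ≤ d l → ¬ Special n d

/-- Z0 (medium; uses: RKU, EUL, MHS, DIM). Some `d i = 0`: special iff `∑ d i ≥ 2`.
PROOF. `κ = Fin k`, `ι = Var n`, `c = Sigma.fst`, `D' = Dk c univ d = 1 + ∑_{i : 1 ≤ d i} n i < N + 1`,
`h = finrank (MultiHom n d) = ∏ (n i + d i).choose (n i)` (DIM, MHS).
(←) Take `r = 1`. For EVERY `p : Fin 1 → Var n → ℂ`: `Sys n d p` is obtained from `MultiHom n d` by the
conditions `∇f(p) = 0` (rank `≤ D'` by RKU) and `f(p) = 0`, which follows from them by EUL for a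
colour with `d i ≥ 1`. So `finrank Sys ≥ h - D'`. Moreover `h ≥ D' + 1`: as `∑ d i ≥ 2`, either some
`d i ≥ 2`, then `(n i + d i).choose (n i) ≥ (n i + 1) + 1`, or two of the `d i` are `≥ 1`; in general
`∏ (1 + a_i) ≥ 1 + ∑ a_i` with `a_i = (n i + d i).choose (n i) - 1 ≥ n i` (`= 0` if `d i = 0`), strict
if two of the `a_i` are `≥ 1`, or if one `a_i > n i`. So `finrank Sys ≥ h - D' > max (h - (N+1), 0)`, and
`Independent n d p` fails for all `p`. If `General n 1 (Independent n d)` held with `F`, then choose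
`p` with all coordinates non zero and `F(p) ≠ 0` (the product of `F` with all variables is a non zero
polynomial): contradiction.
(→) `∑ d i ≤ 1`. If all `d i = 0` then `MultiHom n d` = constants, `h = 1`; if `d = e_j` then
`MultiHom n d` = linear forms in the `X ⟨j, ·⟩`, `h = n j + 1 ≤ N + 1`. For `r ≥ 1` and every `p`
`Sys n d p = 0` (constants with `f(p) = 0`; linear forms whose derivatives vanish), and the expected
dimension `h - r (N+1)` is `0`. So `Independent` holds for all `p`, and `General` holds with `F = 1`. -/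
def Z0_stmt : Prop :=
  ∀ (k : ℕ) (n d : Fin k → ℕ), (∀ i, 1 ≤ n i) → (∃ i, d i = 0) → (Special n d ↔ 2 ≤ ∑ i, d i)

/-! ## Integers `d i` -/

/-- `H^0(O(d_1,...,d_k))` for `d ∈ ℤ^k`: polynomials all of whose monomials have degree `d_i` in the
`i`-th group of variables; this is `0` if some `d_i < 0`. -/
def MultiHomZ {k : ℕ} (n : Fin k → ℕ) (d : Fin k → ℤ) :
    Submodule ℂ (MvPolynomial (Var n) ℂ) where
  carrier := {f | ∀ m, coeff m f ≠ 0 → ∀ i, ∑ j : Fin (n i + 1), (m ⟨i, j⟩ : ℤ) = d i}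
  add_mem' := by
    intro f g hf hg m hm i
    by_cases h : coeff m f = 0
    · exact hg m (by intro h2; apply hm; simp [h, h2]) i
    · exact hf m h i
  zero_mem' := by
    intro m hm
    simp at hm
  smul_mem' := by
    intro a f hf m hm i
    exact hf m (by intro h; apply hm; simp [h]) i

/-- `H^0(I_Z ⊗ O(d))` for the union `Z` of the double points at `p 1, ..., p r`. -/
noncomputable def SysZ {k : ℕ} (n : Fin k → ℕ) (d : Fin k → ℤ) {r : ℕ} (p : Fin r → Var n → ℂ) :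
    Submodule ℂ (MvPolynomial (Var n) ℂ) :=
  MultiHomZ n d ⊓ ⨅ l, DoubleAt (p l)

/-- The union of the double points at `p 1, ..., p r` imposes independent conditions on `O(d)`
(`N + 1` = degree of a double point; truncated subtraction is `max(.,0)`). -/
def IndependentZ {k : ℕ} (n : Fin k → ℕ) (d : Fin k → ℤ) {r : ℕ} (p : Fin r → Var n → ℂ) : Prop :=
  finrank ℂ (SysZ n d p) = finrank ℂ (MultiHomZ n d) - r * (∑ i, n i + 1)

/-- `O(d_1,...,d_k)`, `d ∈ ℤ^k`, is special. -/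
def SpecialZ {k : ℕ} (n : Fin k → ℕ) (d : Fin k → ℤ) : Prop :=
  ∃ r : ℕ, 1 ≤ r ∧ ¬ General n r (IndependentZ n d)

/-- The explicit list.
* all `d_i ≥ 0`, some `d_i = 0`, `∑ d_i ≥ 2`;
* `k = 2`: one factor is `P^1`, the degree on the other factor is `2`, the degree on `P^1` is even
  (and positive);
* `k = 3`: one factor is `P^1`, the degrees on the two other factors `P^a`, `P^b` are `1`, and the
  degree on `P^1` is `⌊r/(a+1)⌋ + ⌊r/(b+1)⌋ ≥ 1` for some `r` divisible neither by `a+1` nor `b+1`. -/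
def CritZ {k : ℕ} (n : Fin k → ℕ) (d : Fin k → ℤ) : Prop :=
  ((∀ i, 0 ≤ d i) ∧ (∃ i, d i = 0) ∧ 2 ≤ ∑ i, d i) ∨
  ((∀ i, 1 ≤ d i) ∧
    ((k = 2 ∧ ∃ l, n l = 1 ∧ (∀ i, i ≠ l → d i = 2) ∧ Even (d l)) ∨
     (k = 3 ∧ ∃ l, n l = 1 ∧ (∀ i, i ≠ l → d i = 1) ∧
       ∃ r : ℕ, (∀ i, i ≠ l → ¬ (n i + 1) ∣ r) ∧
         (∑ i ∈ Finset.univ.erase l, r / (n i + 1) : ℕ) = d l)))

/-- ZB (short). Comparison of the definitions for `ℕ` and `ℤ`.
PROOF. For `d i = (e i : ℕ)` the conditions defining `MultiHomZ n d` and `MultiHom n e` are the same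
(`Nat.cast_sum`, `Nat.cast_inj`), so `MultiHomZ n d = MultiHom n e` and everything else agrees; `CritZ`
is the same up to casts (`Int.even_coe_nat`). If some `d i < 0` then `MultiHomZ n d = ⊥` (a sum of
natural numbers is not negative), both dimensions are `0`, `IndependentZ` holds for all `p`,
`General` with `F = 1`, so `SpecialZ n d` is false; `CritZ n d` is false. -/
def ZB_stmt : Prop :=
  ∀ (k : ℕ) (n : Fin k → ℕ),
    (∀ e : Fin k → ℕ, (SpecialZ n (fun i => (e i : ℤ)) ↔ Special n e) ∧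
      (CritZ n (fun i => (e i : ℤ)) ↔
        ((∃ i, e i = 0) ∧ 2 ≤ ∑ i, e i) ∨ ((∀ i, 1 ≤ e i) ∧ Crit n e))) ∧
    (∀ d : Fin k → ℤ, (∃ i, d i < 0) → ¬ SpecialZ n d ∧ ¬ CritZ n d)

/-- ALN (short-medium; uses: FIN, K23, E1K, Z0). All `d ∈ ℕ^k`.
PROOF. Let `d` be in the set. If some `d i = 0`: Z0, and the second alternative is false: contradiction.
So all `d i ≥ 1` and `¬ (Special n d ↔ Crit n d)`. If `k ∈ {2,3}`: finite by K23. If `k ≥ 4` then
`Crit n d` is false, so `Special n d`; either `d` is in the finite set of FIN, or (`k ≠ 2`) there is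
`l` with `n l = 1` and `d i = 1` for `i ≠ l`; by E1K `d l < e₀ l`: finitely many `d` for each `l`. -/
def ALN_stmt : Prop :=
  ∀ (k : ℕ) (n : Fin k → ℕ), 2 ≤ k → (∀ i, 1 ≤ n i) →
    {d : Fin k → ℕ | ¬ (Special n d ↔
      ((∃ i, d i = 0) ∧ 2 ≤ ∑ i, d i) ∨ ((∀ i, 1 ≤ d i) ∧ Crit n d))}.Finite

/-- ALZ (short; uses: ALN, ZB). THE CLASSIFICATION UP TO FINITELY MANY LINE BUNDLES.
PROOF. The set is contained in the image of the finite set of ALN under `e ↦ (fun i => (e i : ℤ))`: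
if some `d i < 0` use the second half of ZB, otherwise `d i = ((d i).toNat : ℤ)`. -/
def ALZ_stmt : Prop :=
  ∀ (k : ℕ) (n : Fin k → ℕ), 2 ≤ k → (∀ i, 1 ≤ n i) →
    {d : Fin k → ℤ | ¬ (SpecialZ n d ↔ CritZ n d)}.Finite

/-- EXZ (short; uses: ZB, E20, E10, E11, THR). The exact families and the threshold for `SpecialZ`. -/
def EXZ_stmt : Prop :=
  (∀ m e : ℕ, 1 ≤ m → 1 ≤ e → (SpecialZ ![m, 1] ![2, (e : ℤ)] ↔ Even e)) ∧
  (∀ m e : ℕ, 1 ≤ m → 1 ≤ e → ¬ SpecialZ ![m, 1] ![1, (e : ℤ)]) ∧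
  (∀ a b e : ℕ, 1 ≤ a → 1 ≤ b → 1 ≤ e →
    (SpecialZ ![a, b, 1] ![1, 1, (e : ℤ)] ↔
      ∃ r : ℕ, ¬ (a + 1) ∣ r ∧ ¬ (b + 1) ∣ r ∧ r / (a + 1) + r / (b + 1) = e)) ∧
  (∀ (k : ℕ) (n d : Fin k → ℕ), 2 ≤ k → (∀ i, 1 ≤ n i) → (∀ i, 1 ≤ d i) → ∀ j : Fin k,
    ((3 ≤ d j ∧ (∑ i, n i + 1) ^ 3 ≤ hj n d j) ∨
      (d j = 2 ∧ (∑ i, n i - n j + 1) * (∑ i, n i + 1) ^ 3 ≤ (∑ i, n i - n j - 1) * hj n d j)) →
    ¬ SpecialZ n (fun i => (d i : ℤ)))

end Pool.Agent.SV
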