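import Pool.Agent.helper53.SV.T1
import Pool.Agent.helper90.SV.GAL
import Pool.Agent.helper51.SV.GPB
import Pool.Agent.helper13.SV.GKR
import Pool.Agent.helper59.SV.UG
import Pool.Agent.helper34.SV.BCA
import Pool.Agent.helper64.SV.MON
import Pool.Agent.helper58.SV.RKB
import Pool.Agent.helper18.SV.ZER
import Pool.Agent.helper93.SV.SQN
import Pool.Agent.helper11.SV.PLY
import Pool.Agent.helper87.SV.EUL
import Pool.Agent.helper89.SV.HOM
import Pool.Agent.helper38.SV.CHN
import Pool.Agent.helper62.SV.HSB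
import Pool.Agent.helper99.SV.HPT
import Pool.Agent.helper92.SV.HON
import Pool.Agent.helper45.SV.SPN
import Pool.Agent.helper97.SV.CUT
import Pool.Agent.helper21.SV.RKU
import Pool.Agent.helper72.SV.RKL
import Pool.Agent.helper43.SV.VIS
import Pool.Agent.helper73.SV.DFM
import Pool.Agent.helper65.SV.ONE
import Pool.Agent.helper46.SV.TRC
import Pool.Agent.helper70.SV.RST
import Pool.Agent.helper28.SV.PTH
import Pool.Agent.helper58.SV.PH0
import Pool.Agent.helper31.SV.SMP
import Pool.Agent.helper27.SV.RES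
import Pool.Agent.helper19.SV.AHL
import Pool.Agent.helper57.SV.COR
import Pool.Agent.helper91.SV.DIM
import Pool.Agent.helper63.SV.NUM
import Pool.Agent.helper50.SV.CRT
import Pool.Agent.helper12.SV.MHS
import Pool.Agent.helper52.SV.LOW
import Pool.Agent.helper30.SV.GNF
import Pool.Agent.helper16.SV.ALR
import Pool.Agent.helper25.SV.FIN
import Pool.Agent.helper84.SV.E20
import Pool.Agent.helper33.SV.E11
import Pool.Agent.helper93.SV.K23

/-!
# Project sv: (MP_b5a345_ag): assembly of the core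
-/

set_option autoImplicit false

namespace Pool.Agent.SV

theorem GKR' : GKR_stmt := GKR T1
theorem UG' : UG_stmt := UG GAL GKR'
theorem BCA' : BCA_stmt := BCA T1
theorem MON' : MON_stmt := MON UG'
theorem HPT' : HPT_stmt := HPT CHN HOM
theorem HON' : HON_stmt := HON HOM
theorem RKU' : RKU_stmt := RKU EUL HOM T1 PLY CUT
theorem RKL' : RKL_stmt := RKL CUT
theorem VIS' : VIS_stmt := VIS EUL
theorem DFM' : DFM_stmt := DFM PLY HSB HPT' HON' SPN CUT
theorem ONE' : ONE_stmt := ONE SQN MON' RKB RKU' RKL' BCA' ZER DFM' VIS' UG' PLY HOM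
theorem TRC' : TRC_stmt := TRC ONE' RKB SMP HOM
theorem RST' : RST_stmt := RST EUL
theorem PTH' : PTH_stmt := PTH BCA' ZER MON' RKB RKU' RKL' DFM' VIS' UG' GAL GKR' PLY RST'
theorem RES' : RES_stmt := RES PTH' PH0 SMP GKR' GAL GPB PLY RST'
theorem AHL' : AHL_stmt := AHL T1 EUL HOM RST' CUT
theorem COR' : COR_stmt := COR RES' TRC' AHL' GKR' GAL PLY ONE'
theorem CRT' : CRT_stmt := CRT COR' DIM NUM
theorem LOW' : LOW_stmt := LOW RKU' EUL MHS
theorem GNF' (hSYS : SYS_stmt) : GNF_stmt := GNF LOW' hSYS MHS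
theorem ALR' (hSYS : SYS_stmt) : ALR_stmt := ALR (GNF' hSYS) RKU'
theorem THR' (hSYS : SYS_stmt) : THR_stmt := THR CRT' (ALR' hSYS)
theorem FIN' (hSYS : SYS_stmt) : FIN_stmt := FIN (THR' hSYS)
theorem E20' (hSYS : SYS_stmt) : E20_stmt := E20 (ALR' hSYS) MHS DIM EUL HOM
theorem E11' (hSYS : SYS_stmt) : E11_stmt := E11 DIM MHS (ALR' hSYS)

end Pool.Agent.SV
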