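import Pool.Agent.helper53.SV.T1
import Pool.Agent.helper25.SVA.ALG
import Pool.Agent.helper24.SV.BLD
import Pool.Agent.helper87.SV.BLK
import Pool.Agent.helper92.SVA.BR1
import Pool.Agent.helper89.SVA.BR2
import Pool.Agent.helper24.SV.BR3
import Pool.Agent.helper89.SVA.BST
import Pool.Agent.helper65.SVA.CNT
import Pool.Agent.helper25.SVA.CRI
import Pool.Agent.helper96.SVA.DIV
import Pool.Agent.helper75.SVA.DVV
import Pool.Agent.helper24.SV.FVR
import Pool.Agent.helper45.SVA.GZT
import Pool.Agent.helper55.SV.ITR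
import Pool.Agent.helper65.SVA.KEY
import Pool.Agent.helper45.SVA.KZ
import Pool.Agent.helper50.SV.LIN
import Pool.Agent.helper95.SVA.LQA
import Pool.Agent.helper95.SVA.LQB
import Pool.Agent.helper96.SVA.MNO
import Pool.Agent.helper51.SVA.MU
import Pool.Agent.helper3.SVA.MU1
import Pool.Agent.helper11.SVA.MU2
import Pool.Agent.helper11.SVA.MU3
import Pool.Agent.helper29.SVA.PDV
import Pool.Agent.helper77.SVA.PFR
import Pool.Agent.helper45.SVA.PHD
import Pool.Agent.helper64.SVA.PHE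
import Pool.Agent.helper72.SVA.REL
import Pool.Agent.helper61.SVA.ROT
import Pool.Agent.helper96.SVA.SCL
import Pool.Agent.helper25.SVA.SEM
import Pool.Agent.helper59.SVA.SIG
import Pool.Agent.helper50.SV.STA
import Pool.Agent.helper33.SV.STP
import Pool.Agent.helper65.SVA.SUR
import Pool.Agent.helper16.SVA.TDM
import Pool.Agent.helper96.SVA.TEN
import Pool.Agent.helper52.SV.WDM

/-!
# Project sva: (MP_b5a345_ag): assembly of the modules of part A
-/

set_option autoImplicit false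

namespace Pool.Agent.SVA

open Pool.Agent

theorem SCL' : SCL_stmt := SCL TEN
theorem DIV' : DIV_stmt := DIV SCL'
theorem MU2' : MU2_stmt := MU2 MU1
theorem MU' : MU_stmt := MU MU2' MU3
theorem LQA' : LQA_stmt := LQA SV.T1
theorem LQB' : LQB_stmt := LQB SV.T1
theorem LIN' : LIN_stmt := LIN SV.T1
theorem SEM' : SEM_stmt := SEM LQA' PHE SCL'
theorem CNT' : CNT_stmt := CNT WDM TDM
theorem REL' : REL_stmt := REL TDM WDM
theorem ROT' : ROT_stmt := ROT GZT
theorem FVR' : FVR_stmt := FVR TEN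
theorem KZ' : KZ_stmt := KZ LQB' PHE PFR SCL' SIG FVR'
theorem BLD' : BLD_stmt := BLD BLK PHD
theorem KEY' : KEY_stmt := KEY REL' MU' ROT' GZT KZ' BLD' SEM' CNT' DIV' MNO TEN
theorem ITR' : ITR_stmt := ITR KEY'
theorem SUR' : SUR_stmt := SUR DIV' CNT' TDM TEN
theorem STP' : STP_stmt := STP ITR' LIN' SUR' CNT' DIV' TEN DVV MNO
theorem STA' : STA_stmt := STA WDM
theorem BST' : BST_stmt := BST SEM' BLD' CNT'
theorem ALG' : ALG_stmt := ALG STA' BST' STP'
theorem CRI' : CRI_stmt := CRI ALG' DVV MNO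
theorem BR2' : BR2_stmt := BR2 BR1 PDV
theorem BR3' : BR3_stmt := BR3 BR1 BR2'

end Pool.Agent.SVA
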