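import Mathlib

/-!
# Project sv: (MP_b5a345_ag): definitions

Proof on paper: /team-store/SV_NOTES_helper80.md.
-/

set_option autoImplicit false
set_option linter.unusedSectionVars false

namespace Pool.Agent.SV

open MvPolynomial Module

/-! ## Polynomial functions of one complex variable -/

/-- `g` is (the function of) a polynomial in `t`. -/
def PolyFun (g : ℂ → ℂ) : Prop := ∃ p : Polynomial ℂ, ∀ t, g t = p.eval t

theorem PolyFun.const (a : ℂ) : PolyFun (fun _ => a) := ⟨Polynomial.C a, fun t => by simp⟩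

theorem PolyFun.id : PolyFun (fun t => t) := ⟨Polynomial.X, fun t => by simp⟩

theorem PolyFun.add {f g : ℂ → ℂ} (hf : PolyFun f) (hg : PolyFun g) :
    PolyFun (fun t => f t + g t) := by
  obtain ⟨p, hp⟩ := hf
  obtain ⟨q, hq⟩ := hg
  exact ⟨p + q, fun t => by simp [hp, hq]⟩

theorem PolyFun.mul {f g : ℂ → ℂ} (hf : PolyFun f) (hg : PolyFun g) :
    PolyFun (fun t => f t * g t) := by
  obtain ⟨p, hp⟩ := hf
  obtain ⟨q, hq⟩ := hg
  exact ⟨p * q, fun t => by simp [hp, hq]⟩

theorem PolyFun.neg {f : ℂ → ℂ} (hf : PolyFun f) : PolyFun (fun t => - f t) := by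
  obtain ⟨p, hp⟩ := hf
  exact ⟨-p, fun t => by simp [hp]⟩

theorem PolyFun.sub {f g : ℂ → ℂ} (hf : PolyFun f) (hg : PolyFun g) :
    PolyFun (fun t => f t - g t) := by
  obtain ⟨p, hp⟩ := hf
  obtain ⟨q, hq⟩ := hg
  exact ⟨p - q, fun t => by simp [hp, hq]⟩

theorem PolyFun.pow {f : ℂ → ℂ} (hf : PolyFun f) (n : ℕ) : PolyFun (fun t => f t ^ n) := by
  obtain ⟨p, hp⟩ := hf
  exact ⟨p ^ n, fun t => by simp [hp]⟩

theorem PolyFun.sum {J : Type*} (s : Finset J) {f : J → ℂ → ℂ}
    (hf : ∀ j ∈ s, PolyFun (f j)) : PolyFun (fun t => ∑ j ∈ s, f j t) := by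
  classical
  induction s using Finset.induction_on with
  | empty => simpa using PolyFun.const 0
  | insert a s ha ih =>
    have h1 := hf a (Finset.mem_insert_self a s)
    have h2 := ih (fun j hj => hf j (Finset.mem_insert_of_mem hj))
    have h3 := h1.add h2
    simpa [Finset.sum_insert ha] using h3

theorem PolyFun.prod {J : Type*} (s : Finset J) {f : J → ℂ → ℂ}
    (hf : ∀ j ∈ s, PolyFun (f j)) : PolyFun (fun t => ∏ j ∈ s, f j t) := by
  classical
  induction s using Finset.induction_on with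
  | empty => simpa using PolyFun.const 1
  | insert a s ha ih =>
    have h1 := hf a (Finset.mem_insert_self a s)
    have h2 := ih (fun j hj => hf j (Finset.mem_insert_of_mem hj))
    have h3 := h1.mul h2
    simpa [Finset.prod_insert ha] using h3

/-- A polynomial function which is non zero somewhere has finitely many zeros. -/
theorem PolyFun.finite_zeros {g : ℂ → ℂ} (hg : PolyFun g) {t₀ : ℂ} (h : g t₀ ≠ 0) :
    {t | g t = 0}.Finite := by
  obtain ⟨p, hp⟩ := hg
  have hp0 : p ≠ 0 := by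
    rintro rfl
    exact h (by simp [hp])
  refine (p.roots.toFinset.finite_toSet).subset ?_
  intro t ht
  change g t = 0 at ht
  simp only [Finset.mem_coe, Multiset.mem_toFinset, Polynomial.mem_roots hp0,
    Polynomial.IsRoot.def]
  rw [← hp]
  exact ht

/-- A polynomial function which vanishes for all but finitely many `t` vanishes everywhere. -/
theorem PolyFun.eq_zero_of_cofinite {g : ℂ → ℂ} (hg : PolyFun g) (h : {t | g t ≠ 0}.Finite)
    (t : ℂ) : g t = 0 := by
  by_contra ht
  have h1 := hg.finite_zeros ht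
  have h2 : (Set.univ : Set ℂ).Finite := by
    refine (h1.union h).subset ?_
    intro s _
    by_cases hs : g s = 0
    · exact Or.inl hs
    · exact Or.inr hs
  exact Set.infinite_univ h2

/-! ## Generic properties (tested on lines) -/

/-- `C` holds at some point and, on every line through a point where it holds, for all but
finitely many parameters. -/
def Gen {W : Type} [AddCommGroup W] [Module ℂ W] (C : W → Prop) : Prop :=
  (∃ Z, C Z) ∧ ∀ Z₀ Z₁, C Z₀ → {t : ℂ | ¬ C (Z₀ + t • (Z₁ - Z₀))}.Finite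

/-! ## Abstract interpolation problems with two types of points -/

section Abstract

variable {E P J : Type} [AddCommGroup E] [Module ℂ E] [AddCommGroup P] [Module ℂ P]

/-- all entries of `Φ` are polynomials along lines of the parameter space -/
def LinePoly (Φ : Bool → P → E →ₗ[ℂ] (J → ℂ)) : Prop :=
  ∀ (τ : Bool) (x y : P) (v : E) (j : J), PolyFun (fun t : ℂ => Φ τ (x + t • (y - x)) v j)

/-- elements of `E` which satisfy the conditions at `a` points of type `true` and `b` points of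
type `false`. -/
def Ker (Φ : Bool → P → E →ₗ[ℂ] (J → ℂ)) {a b : ℕ} (x : Fin a → P) (y : Fin b → P) :
    Submodule ℂ E :=
  (⨅ i, LinearMap.ker (Φ true (x i))) ⊓ (⨅ i, LinearMap.ker (Φ false (y i)))

theorem mem_Ker {Φ : Bool → P → E →ₗ[ℂ] (J → ℂ)} {a b : ℕ} {x : Fin a → P} {y : Fin b → P}
    {v : E} : v ∈ Ker Φ x y ↔ (∀ i, Φ true (x i) v = 0) ∧ ∀ i, Φ false (y i) v = 0 := by
  simp [Ker, Submodule.mem_iInf]

/-- minimal dimension for `a` points of type `true` and `b` points of type `false`. -/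
noncomputable def dmin (Φ : Bool → P → E →ₗ[ℂ] (J → ℂ)) (a b : ℕ) : ℕ :=
  sInf {k | ∃ (x : Fin a → P) (y : Fin b → P), finrank ℂ (Ker Φ x y) = k}

/-- rank of the conditions of type `false` at a general point on the general `Ker`. -/
noncomputable def cc (Φ : Bool → P → E →ₗ[ℂ] (J → ℂ)) (a b : ℕ) : ℕ :=
  dmin Φ a b - dmin Φ a (b + 1)

theorem dmin_le (Φ : Bool → P → E →ₗ[ℂ] (J → ℂ)) {a b : ℕ} (x : Fin a → P) (y : Fin b → P) :
    dmin Φ a b ≤ finrank ℂ (Ker Φ x y) :=
  Nat.sInf_le ⟨x, y, rfl⟩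

theorem exists_dmin (Φ : Bool → P → E →ₗ[ℂ] (J → ℂ)) (a b : ℕ) :
    ∃ (x : Fin a → P) (y : Fin b → P), finrank ℂ (Ker Φ x y) = dmin Φ a b :=
  Nat.sInf_mem (s := {k | ∃ (x : Fin a → P) (y : Fin b → P), finrank ℂ (Ker Φ x y) = k})
    ⟨_, fun _ => 0, fun _ => 0, rfl⟩

/-- all subconfigurations of `(x,y)` have minimal dimension -/
def Uniform (Φ : Bool → P → E →ₗ[ℂ] (J → ℂ)) (n : ℕ) (x y : Fin n → P) : Prop :=
  ∀ (a b : ℕ) (s : Fin a ↪ Fin n) (t : Fin b ↪ Fin n),
    finrank ℂ (Ker Φ (x ∘ s) (y ∘ t)) = dmin Φ a b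

/-- the deformation property used in the drop lemma; `V f` = `f` is visible. -/
def Deformable (Φ : Bool → P → E →ₗ[ℂ] (J → ℂ)) (V : E → Prop) : Prop :=
  ∀ f, V f → ∀ (x₀ : P) (l : (J → ℂ) →ₗ[ℂ] ℂ), (∃ g, l (Φ false x₀ g) ≠ 0) →
    ∃ (α : ℂ → P → P) (H : ℂ → E → E),
      (∀ x, α 0 x = x) ∧
      (∀ (τ : Bool) (x : P) (v : E) (j : J), PolyFun (fun t => Φ τ (α t x) v j)) ∧
      (∀ (x : P) (j : J), PolyFun (fun t => Φ false x (H t f) j)) ∧
      (∀ (τ : Bool) (x : P) (t : ℂ), Φ τ x f = 0 → Φ τ (α t x) (H t f) = 0) ∧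
      l (Φ false x₀ (H 1 f)) ≠ 0

end Abstract

/-! ## Multihomogeneous polynomials -/

section Concrete

variable {ι κ : Type} [Fintype ι] [DecidableEq ι] [Fintype κ] [DecidableEq κ]

/-- exponents of the monomials in the variables `A` of multidegree `d` (`c` = colour = factor). -/
def Mon (c : ι → κ) (A : Finset ι) (d : κ → ℕ) : Set (ι →₀ ℕ) :=
  {m | (∀ i, i ∉ A → m i = 0) ∧ ∀ k, ∑ i ∈ Finset.univ.filter (fun i => c i = k), m i = d k}

theorem Mon_finite (c : ι → κ) (A : Finset ι) (d : κ → ℕ) : (Mon c A d).Finite := by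
  have h : ({f : ι →₀ ℕ | ∀ a, f a ≤ ∑ k, d k}).Finite :=
    (Set.Finite.pi' fun _ ↦ Set.finite_le_nat _).preimage DFunLike.coe_injective.injOn
  refine h.subset ?_
  intro m hm a
  calc m a ≤ ∑ i ∈ Finset.univ.filter (fun i => c i = c a), m i :=
        Finset.single_le_sum (f := fun i => m i) (fun _ _ => Nat.zero_le _) (by simp)
    _ = d (c a) := hm.2 (c a)
    _ ≤ ∑ k, d k := Finset.single_le_sum (f := d) (fun _ _ => Nat.zero_le _) (Finset.mem_univ _)

/-- multihomogeneous polynomials of multidegree `d` in the variables `A`. -/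
noncomputable def Sec (c : ι → κ) (A : Finset ι) (d : κ → ℕ) : Submodule ℂ (MvPolynomial ι ℂ) :=
  restrictSupport ℂ (Mon c A d)

theorem mem_Sec {c : ι → κ} {A : Finset ι} {d : κ → ℕ} {f : MvPolynomial ι ℂ} :
    f ∈ Sec c A d ↔ ∀ m, coeff m f ≠ 0 → m ∈ Mon c A d := by
  unfold Sec
  rw [mem_restrictSupport_iff]
  constructor
  · intro h m hm
    exact h (by simpa [MvPolynomial.mem_support_iff] using hm)
  · intro h m hm
    exact h m (by simpa [MvPolynomial.mem_support_iff] using hm)

instance (c : ι → κ) (A : Finset ι) (d : κ → ℕ) : Module.Finite ℂ (Sec c A d) := by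
  have : Finite (Mon c A d) := (Mon_finite c A d).to_subtype
  exact Module.Finite.of_basis (basisRestrictSupport ℂ _)

theorem finrank_Sec (c : ι → κ) (A : Finset ι) (d : κ → ℕ) :
    finrank ℂ (Sec c A d) = (Mon c A d).ncard := by
  have : Finite (Mon c A d) := (Mon_finite c A d).to_subtype
  exact finrank_eq_nat_card_basis (basisRestrictSupport ℂ (Mon c A d))

/-- the point `x` with the coordinates outside `A` replaced by `0`. -/
def cut (A : Finset ι) (x : ι → ℂ) : ι → ℂ := fun i => if i ∈ A then x i else 0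

/-- evaluation as a linear map -/
noncomputable def evL (x : ι → ℂ) : MvPolynomial ι ℂ →ₗ[ℂ] ℂ := (aeval x).toLinearMap

@[simp] theorem evL_apply (x : ι → ℂ) (f : MvPolynomial ι ℂ) : evL x f = eval x f := by
  simp [evL]

/-- the partial derivatives in the variables `A` at `x` (other entries `0`). -/
noncomputable def gradL (A : Finset ι) (x : ι → ℂ) : MvPolynomial ι ℂ →ₗ[ℂ] (ι → ℂ) :=
  LinearMap.pi (fun i => if i ∈ A then (evL x) ∘ₗ (pderiv i).toLinearMap else 0)

theorem gradL_apply (A : Finset ι) (x : ι → ℂ) (f : MvPolynomial ι ℂ) (i : ι) :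
    gradL A x f i = if i ∈ A then eval x (pderiv i f) else 0 := by
  unfold gradL
  by_cases h : i ∈ A
  · simp [h]
  · simp [h]

/-- Two types of conditions on the polynomials in the variables `B`: `true` = singular at `x` (all
derivatives), `false` = the restriction to the coordinate subspace of `A` is singular at
`cut A x`. -/
noncomputable def Phi (c : ι → κ) (A B : Finset ι) (d : κ → ℕ) (τ : Bool) (x : ι → ℂ) :
    ↥(Sec c B d) →ₗ[ℂ] (ι → ℂ) :=
  (if τ then gradL B x else gradL A (cut A x)) ∘ₗ (Sec c B d).subtype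

/-- One type of conditions (`false`) on the polynomials in the variables `A`. -/
noncomputable def Phi1 (c : ι → κ) (A : Finset ι) (d : κ → ℕ) (τ : Bool) (x : ι → ℂ) :
    ↥(Sec c A d) →ₗ[ℂ] (ι → ℂ) :=
  if τ then 0 else gradL A (cut A x) ∘ₗ (Sec c A d).subtype

/-- generic rank of the gradient on `Sec c A d` -/
def Dk (c : ι → κ) (A : Finset ι) (d : κ → ℕ) : ℕ :=
  1 + ∑ k ∈ Finset.univ.filter (fun k => 1 ≤ d k), ((A.filter (fun i => c i = k)).card - 1)

/-- lower the degree of colour `k` by one -/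
def low (d : κ → ℕ) (k : κ) : κ → ℕ := Function.update d k (d k - 1)

/-- polynomials of multidegree `d` (all variables) which are singular at all `x l`. -/
noncomputable def Sng (c : ι → κ) (d : κ → ℕ) {r : ℕ} (x : Fin r → ι → ℂ) : Submodule ℂ (MvPolynomial ι ℂ) :=
  Sec c Finset.univ d ⊓ ⨅ l, LinearMap.ker (gradL Finset.univ (x l))

theorem mem_Sng {c : ι → κ} {d : κ → ℕ} {r : ℕ} {x : Fin r → ι → ℂ} {f : MvPolynomial ι ℂ} :
    f ∈ Sng c d x ↔ f ∈ Sec c Finset.univ d ∧ ∀ l i, eval (x l) (pderiv i f) = 0 := by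
  simp only [Sng, Submodule.mem_inf, Submodule.mem_iInf, LinearMap.mem_ker]
  refine and_congr Iff.rfl (forall_congr' fun l => ?_)
  constructor
  · intro h i
    have := congrFun h i
    simpa [gradL_apply] using this
  · intro h
    funext i
    simp [gradL_apply, h i]

/-- The residual system on the hyperplane `X z = 0` (`A = univ.erase z`): `g` of multidegree `d`,
singular at the `s l`, vanishing at the `q j` (in the hyperplane), with restriction to the
hyperplane singular at the `p i`. -/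
noncomputable def Resid (c : ι → κ) (z : ι) (d : κ → ℕ) {u δ r : ℕ} (q : Fin u → ι → ℂ) (p : Fin δ → ι → ℂ)
    (s : Fin r → ι → ℂ) : Submodule ℂ (MvPolynomial ι ℂ) :=
  Sng c d s ⊓ ((⨅ j, LinearMap.ker (evL (cut (Finset.univ.erase z) (q j)))) ⊓
    ⨅ i, LinearMap.ker (gradL (Finset.univ.erase z) (cut (Finset.univ.erase z) (p i))))

theorem mem_Resid {c : ι → κ} {z : ι} {d : κ → ℕ} {u δ r : ℕ} {q : Fin u → ι → ℂ}
    {p : Fin δ → ι → ℂ} {s : Fin r → ι → ℂ} {g : MvPolynomial ι ℂ} :
    g ∈ Resid c z d q p s ↔ g ∈ Sec c Finset.univ d ∧ (∀ l i, eval (s l) (pderiv i g) = 0) ∧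
      (∀ j, eval (cut (Finset.univ.erase z) (q j)) g = 0) ∧
      ∀ i, ∀ v, v ≠ z → eval (cut (Finset.univ.erase z) (p i)) (pderiv v g) = 0 := by
  simp only [Resid, Submodule.mem_inf, mem_Sng, Submodule.mem_iInf, LinearMap.mem_ker, evL_apply,
    and_assoc]
  refine and_congr Iff.rfl (and_congr Iff.rfl (and_congr Iff.rfl (forall_congr' fun i => ?_)))
  constructor
  · intro h v hv
    have := congrFun h v
    simpa [gradL_apply, hv] using this
  · intro h
    funext v
    by_cases hv : v = z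
    · simp [gradL_apply, hv]
    · simp [gradL_apply, hv, h v hv]

end Concrete

/-! ## The problem: line bundles on products of projective spaces -/

section Problem

/-- homogeneous coordinates `x_{i,j}`, `i < k`, `j ≤ n_i`, on `P^{n_1} × ... × P^{n_k}`. -/
abbrev Var {k : ℕ} (n : Fin k → ℕ) : Type := Σ i : Fin k, Fin (n i + 1)

/-- `H^0(O(d_1,...,d_k))`: polynomials all of whose monomials have degree `d_i` in the `i`-th group
of variables. -/
def MultiHom {k : ℕ} (n d : Fin k → ℕ) : Submodule ℂ (MvPolynomial (Var n) ℂ) where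
  carrier := {f | ∀ m, coeff m f ≠ 0 → ∀ i, ∑ j : Fin (n i + 1), m ⟨i, j⟩ = d i}
  add_mem' := by
    intro f g hf hg m hm i
    by_cases h : coeff m f = 0
    · exact hg m (by intro h2; apply hm; simp [h, h2]) i
    · exact hf m h i
  zero_mem' := by
    intro m hm
    simp at hm
  smul_mem' := by
    intro a f hf m hm i
    exact hf m (by intro h; apply hm; simp [h]) i

/-- homogeneous coordinates of a point of `P^{n_1} × ... × P^{n_k}` -/
def IsPoint {k : ℕ} (n : Fin k → ℕ) (x : Var n → ℂ) : Prop := ∀ i, ∃ j, x ⟨i, j⟩ ≠ 0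

/-- the polynomials contained in the square of the ideal of the point: `f` and all its first
partial derivatives vanish at `x`. -/
def DoubleAt {k : ℕ} {n : Fin k → ℕ} (x : Var n → ℂ) : Submodule ℂ (MvPolynomial (Var n) ℂ) where
  carrier := {f | eval x f = 0 ∧ ∀ v, eval x (pderiv v f) = 0}
  add_mem' := by
    rintro f g ⟨hf, hf'⟩ ⟨hg, hg'⟩
    exact ⟨by simp [hf, hg], fun v => by simp [hf' v, hg' v]⟩
  zero_mem' := ⟨by simp, fun v => by simp⟩
  smul_mem' := by
    rintro a f ⟨hf, hf'⟩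
    exact ⟨by simp [hf], fun v => by simp [hf' v]⟩

/-- `H^0(I_Z ⊗ O(d))` for the union `Z` of the double points at `p 1, ..., p r`. -/
noncomputable def Sys {k : ℕ} (n d : Fin k → ℕ) {r : ℕ} (p : Fin r → Var n → ℂ) :
    Submodule ℂ (MvPolynomial (Var n) ℂ) :=
  MultiHom n d ⊓ ⨅ l, DoubleAt (p l)

/-- The union of the double points at `p 1, ..., p r` imposes independent conditions on
`O(d_1,...,d_k)` (`N + 1 = ∑ n_i + 1` = degree of a double point; truncated subtraction is
`max(.,0)`). -/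
def Independent {k : ℕ} (n d : Fin k → ℕ) {r : ℕ} (p : Fin r → Var n → ℂ) : Prop :=
  finrank ℂ (Sys n d p) = finrank ℂ (MultiHom n d) - r * (∑ i, n i + 1)

/-- `Q` holds for `r` general points of `P^{n_1} × ... × P^{n_k}`: for all `r`-tuples outside the
zero set of some non zero polynomial in the homogeneous coordinates. -/
def General {k : ℕ} (n : Fin k → ℕ) (r : ℕ) (Q : (Fin r → Var n → ℂ) → Prop) : Prop :=
  ∃ F : MvPolynomial (Fin r × Var n) ℂ, F ≠ 0 ∧
    ∀ p : Fin r → Var n → ℂ, (∀ l, IsPoint n (p l)) → eval (fun v => p v.1 v.2) F ≠ 0 → Q p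

/-- `O(d_1,...,d_k)` is special. -/
def Special {k : ℕ} (n d : Fin k → ℕ) : Prop :=
  ∃ r : ℕ, 1 ≤ r ∧ ¬ General n r (Independent n d)

/-- `h^0` of `O(..., d_j - 1, ...)` on a hyperplane of the `j`-th factor. -/
def hj {k : ℕ} (n d : Fin k → ℕ) (j : Fin k) : ℕ :=
  (n j + d j - 2).choose (n j - 1) * ∏ i ∈ Finset.univ.erase j, (n i + d i).choose (n i)

end Problem

end Pool.Agent.SV
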