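import Pool.Agent.helper33.SV.E11
import Pool.Agent.helper65.SV.SpecE

/-! Project sv: (MP_b5a345_ag): module E10 (second proof, through the statements of part P). -/

set_option autoImplicit false

namespace Pool.Agent.SV

open MvPolynomial Module

/-- the index type of the factors other than `P^1` -/
abbrev E10K : Type := {i : Fin 2 // i ≠ 1}

def E10_i0 : E10K := ⟨0, by decide⟩

theorem E10_all (i : E10K) : i = E10_i0 := by
  obtain ⟨i, hi⟩ := i
  apply Subtype.ext
  show i = 0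
  have h : i ≠ 1 := hi
  revert h
  fin_cases i <;> simp

instance : Unique E10K := ⟨⟨E10_i0⟩, E10_all⟩

/-- the dimension of the factor -/
abbrev E10_n (m : ℕ) (i : E10K) : ℕ := (![m, 1] : Fin 2 → ℕ) i

def E10_eq (m : ℕ) : Cell (E10_n m) ≃ Fin (m + 1) :=
  Equiv.piUnique (fun i : E10K => ZMod (E10_n m i + 1))

def E10_c (m r : ℕ) (l : Fin r) : Cell (E10_n m) :=
  (E10_eq m).symm ⟨(l : ℕ) % (m + 1), Nat.mod_lt _ (Nat.succ_pos _)⟩

theorem E10_wt (m r : ℕ) (x : Cell (E10_n m)) :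
    wt (E10_c m r) (fun _ => 0) x =
      (∑ i ∈ Finset.range r, if i % (m + 1) = (E10_eq m x : ℕ) then 1 else 0) + r := by
  unfold wt
  have h1 : (Finset.univ.filter fun l : Fin r => hammingDist (E10_c m r l) x ≤ 1).card = r := by
    rw [Finset.filter_true_of_mem]
    · simp
    · intro l _
      refine hammingDist_le_card_fintype.trans ?_
      simp
  have h2 : (Finset.univ.filter fun l : Fin r => E10_c m r l - (0 : Cell (E10_n m)) = x).card =
      ∑ i ∈ Finset.range r, if i % (m + 1) = (E10_eq m x : ℕ) then 1 else 0 := by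
    rw [Finset.card_filter, ← Fin.sum_univ_eq_sum_range
      (fun i => if i % (m + 1) = (E10_eq m x : ℕ) then 1 else 0)]
    refine Finset.sum_congr rfl fun l _ => ?_
    have h3 : (E10_c m r l - (0 : Cell (E10_n m)) = x) ↔ ((l : ℕ) % (m + 1) = (E10_eq m x : ℕ)) := by
      rw [sub_zero]
      unfold E10_c
      rw [Equiv.symm_apply_eq]
      constructor
      · intro h
        exact congrArg Fin.val h
      · intro h
        exact Fin.ext h
    simp only [h3]
  rw [h1, h2, add_comm]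

theorem E10 (hALR : ALR_stmt) (hDIM : DIM_stmt) (hMHS : MHS_stmt) (hPGK : PGK_stmt)
    (hPST : PST_stmt) (hPBR : PBR_stmt) : E10_stmt := by
  intro m e hm he
  have hd : ∀ i, 1 ≤ (![1, e] : Fin 2 → ℕ) i := by
    intro i
    fin_cases i
    · exact le_refl _
    · exact he
  refine hALR 2 ![m, 1] ![1, e] (by norm_num) hd ?_
  intro r _
  -- the points
  obtain ⟨x, hx⟩ := hPBR 2 ![m, 1] ![1, e] 1 rfl
    (by intro i hi; have := E10_all ⟨i, hi⟩; have h2 := congrArg Subtype.val this; subst h2; rfl)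
    r (fun l => ePt (E10_c m r l)) (fun l => ((l : ℕ) : ℂ))
  refine ⟨x, hx.trans ?_⟩
  have ht : Function.Injective (fun l : Fin r => ((l : ℕ) : ℂ)) := by
    intro l l' h
    have h' : ((l : ℕ) : ℂ) = ((l' : ℕ) : ℂ) := h
    exact Fin.ext (by exact_mod_cast h')
  have hfin := hPGK E10K (E10_n m) (e + 1) r (E10_c m r) (fun _ => 0) _ ht (fun _ => Or.inl rfl)
  obtain ⟨ε, hε⟩ := hfin.infinite_compl.nonempty
  have hε' : finrank ℂ ↥(TwG (E10_n m) (e + 1) (E10_c m r) (fun _ => 0)
      (fun l : Fin r => ((l : ℕ) : ℂ)) ε) ≤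
      ∑ x, (e + 1 - wt (E10_c m r) (fun _ => 0) x) := by
    by_contra hcon
    exact hε hcon
  have hsub : SolF (E10_n m) (e + 1) (fun l => ePt (E10_c m r l))
      (fun l : Fin r => ((l : ℕ) : ℂ)) = TwG (E10_n m) (e + 1) (E10_c m r) (fun _ => 0)
      (fun l : Fin r => ((l : ℕ) : ℂ)) ε := by
    ext F
    rw [mem_SolF, mem_TwG]
    refine and_congr_right fun _ => forall_congr' fun l => ?_
    rw [hPST]
    constructor
    · rintro ⟨h1, h2⟩
      exact ⟨h1, fun _ => h2, fun h => absurd rfl h⟩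
    · rintro ⟨h1, h2, _⟩
      exact ⟨h1, h2 rfl⟩
  have e1 : finrank ℂ ↥(SolF (fun i : {i : Fin 2 // i ≠ 1} => (![m, 1] : Fin 2 → ℕ) i)
      ((![1, e] : Fin 2 → ℕ) 1 + 1) (fun l => ePt (E10_c m r l))
      (fun l : Fin r => ((l : ℕ) : ℂ))) ≤ ∑ x, (e + 1 - wt (E10_c m r) (fun _ => 0) x) := by
    have : SolF (fun i : {i : Fin 2 // i ≠ 1} => (![m, 1] : Fin 2 → ℕ) i)
      ((![1, e] : Fin 2 → ℕ) 1 + 1) (fun l => ePt (E10_c m r l))
      (fun l : Fin r => ((l : ℕ) : ℂ)) = SolF (E10_n m) (e + 1) (fun l => ePt (E10_c m r l))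
      (fun l : Fin r => ((l : ℕ) : ℂ)) := rfl
    rw [this, hsub]
    exact hε'
  refine e1.trans ?_
  -- the numbers
  have hA : 0 < m + 1 := Nat.succ_pos _
  have e2 : ∑ x : Cell (E10_n m), (e + 1 - wt (E10_c m r) (fun _ => 0) x) =
      ∑ jl : Fin (m + 1) × Fin 1, (e + 1 - ((∑ i ∈ Finset.range r,
        if i % (m + 1) = (jl.1 : ℕ) then 1 else 0) + r)) := by
    rw [Fintype.sum_prod_type]
    refine Fintype.sum_equiv (E10_eq m) _ _ fun x => ?_
    rw [E10_wt, Fin.sum_univ_one]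
  have e3 := E11_sum (m + 1) 1 e r (fun j : Fin (m + 1) => ∑ i ∈ Finset.range r,
        if i % (m + 1) = (j : ℕ) then 1 else 0) (fun _ => r) (E11_tot (m + 1) r hA) (by simp) (by
      have hc := fun j : Fin (m + 1) => E11_cnt (m + 1) r j hA j.2
      by_cases h : r / (m + 1) + 1 + r ≤ e + 1
      · left
        intro j _
        have := (hc j).2.1
        omega
      · right
        intro j _
        have := (hc j).1
        omega)
  have e4 : finrank ℂ (MultiHom ![m, 1] ![1, e]) = (m + 1) * (e + 1) := by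
    rw [E11_finrank hDIM hMHS, Fin.prod_univ_two]
    show Nat.multichoose (m + 1) 1 * Nat.multichoose 2 e = _
    rw [Nat.multichoose_one_right, Nat.multichoose_two]
  have e5 : ∑ i, (![m, 1] : Fin 2 → ℕ) i + 1 = m + 1 + 1 := by
    rw [Fin.sum_univ_two]
    rfl
  rw [e2, e4, e5]
  refine e3.trans (le_of_eq ?_)
  rw [mul_one]

end Pool.Agent.SV
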