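import Pool.Agent.helper80.SV.Spec

/-! Project sv: (MP_b5a345_ag): module SYS. -/

set_option autoImplicit false

namespace Pool.Agent.SV

open MvPolynomial Module

theorem SYS (hEUL : EUL_stmt) (hMHS : MHS_stmt) : SYS_stmt := by
  intro k n d hk hd r p
  ext f
  rw [mem_Sng, ← hMHS k n d]
  simp only [Sys, Submodule.mem_inf, Submodule.mem_iInf]
  refine and_congr_right fun hf => ?_
  refine forall_congr' fun l => ?_
  constructor
  · intro h i
    exact h.2 i
  · intro h
    refine ⟨?_, h⟩
    have hf' : f ∈ Sec (Sigma.fst : Var n → Fin k) Finset.univ d := by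
      rw [← hMHS k n d]; exact hf
    have h1 := hEUL (Sigma.fst : Var n → Fin k) Finset.univ d f hf' ⟨0, by omega⟩ (p l)
    have h2 : ∑ i ∈ Finset.univ.filter (fun i : Var n => i.fst = ⟨0, by omega⟩),
        p l i * eval (p l) (pderiv i f) = 0 :=
      Finset.sum_eq_zero fun i _ => by rw [h i, mul_zero]
    rw [h2] at h1
    have h3 : (d ⟨0, by omega⟩ : ℂ) ≠ 0 := by
      have := hd ⟨0, by omega⟩
      exact_mod_cast (by omega : d ⟨0, by omega⟩ ≠ 0)
    exact (mul_eq_zero.1 h1.symm).resolve_left h3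

end Pool.Agent.SV
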