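import Pool.Agent.helper80.SV.Core
import Pool.Agent.helper80.SV.SYS
import Pool.Agent.helper80.SV.E10
import Pool.Agent.helper38.SV.PBR
import Pool.Agent.helper52.SV.PST
import Pool.Agent.helper55.SV.PGK
import Pool.Agent.helper20.SV.PRM
import Pool.Agent.helper61.SV.Z0
import Pool.Agent.helper70.SV.ZB
import Pool.Agent.helper96.SV.ALE
import Pool.Agent.helper80.SV.CoreA
import Pool.Agent.helper87.SV.E1E

/-!
# Project sv: (MP_b5a345_ag): assembly of the final statements
-/

set_option autoImplicit false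

namespace Pool.Agent.SV

theorem SYS' : SYS_stmt := SYS EUL MHS
theorem ALR'' : ALR_stmt := ALR' SYS'
theorem THR'' : THR_stmt := THR' SYS'
theorem E20'' : E20_stmt := E20' SYS'
theorem E11'' : E11_stmt := E11' SYS'
theorem E10'' : E10_stmt := E10 ALR'' DIM MHS (PGK T1) PST PBR
theorem Z0'' : Z0_stmt := Z0 RKU' EUL MHS DIM
theorem ZB'' : ZB_stmt := ZB

theorem ALE' (hE : SVA.E1E_stmt) : ALE_stmt :=
  ALE THR'' hE E20'' E10'' E11'' PRM Z0'' ZB''

theorem E1E'' : SVA.E1E_stmt := SVA.E1E SVA.CRI' SVA.BR3' ALR'' DIM MHS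

theorem ALE'' : ALE_stmt := ALE' E1E''

end Pool.Agent.SV
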