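import Pool.Agent.helper80.SV.Defs

/-!
# Project sv: (MP_b5a345_ag): specification (modules T1 .. AH, core)

Paper: /team-store/SV_NOTES_helper80.md. One statement `XX_stmt` per module, complete proof in the
docstring. uses: names the statements that may be taken as hypotheses.
-/

set_option autoImplicit false
set_option linter.unusedSectionVars false

namespace Pool.Agent.SV

open MvPolynomial Module

/-! ## Part A: semicontinuity, genericity, the abstract drop lemma (linear algebra) -/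

/-- T1 (medium; semicontinuity on a curve). `B t : E → ℂ^J` linear, all coordinates polynomial in
`t`. If the kernel has dimension `≤ k` at `t₀` then for all but finitely many `t`.
PROOF. Let `ρ = finrank E - k` (if `finrank E ≤ k` nothing to prove). The range of `B t₀` has
dimension `≥ ρ`; choose `v : Fin ρ → E` with `B t₀ (v i)` linearly independent, and linear
functionals `φ j` on `J → ℂ` (or a choice of `ρ` linear combinations of coordinates) with
`det (φ j (B t₀ (v i))) = 1`. `t ↦ det (φ j (B t (v i)))` is a `PolyFun` (sums and products), non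
zero at `t₀`, so non zero for all but finitely many `t` (`PolyFun.finite_zeros`); there the range
of `B t` has dimension `≥ ρ`, the kernel `≤ k` (rank-nullity). -/
def T1_stmt : Prop :=
  ∀ {E J : Type} [AddCommGroup E] [Module ℂ E] [Module.Finite ℂ E] [Finite J]
    (B : ℂ → E →ₗ[ℂ] (J → ℂ)), (∀ v j, PolyFun (fun t => B t v j)) →
    ∀ (k : ℕ) (t₀ : ℂ), finrank ℂ (LinearMap.ker (B t₀)) ≤ k →
      {t : ℂ | ¬ finrank ℂ (LinearMap.ker (B t)) ≤ k}.Finite

/-- GAL (short). Finitely many generic properties are simultaneously generic.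
PROOF. Two properties `C, C'`: `C Z₀`, `C' Z₁`. On the line `t ↦ Z₀ + t (Z₁ - Z₀)` `C` holds for
cofinitely many `t`; `C'` holds for cofinitely many `s` on `s ↦ Z₁ + s (Z₀ - Z₁)` i.e. (with
`t = 1 - s`) for cofinitely many `t`; choose a common `t` (`ℂ` infinite). The second half of `Gen`
is clear. Induction over the finite type (empty type: `W` is non-empty). -/
def GAL_stmt : Prop :=
  ∀ {W I : Type} [AddCommGroup W] [Module ℂ W] [Finite I] (C : I → W → Prop),
    (∀ i, Gen (C i)) → Gen (fun Z => ∀ i, C i Z)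

/-- GPB (short). Generic properties can be pulled back along surjective linear maps. -/
def GPB_stmt : Prop :=
  ∀ {W W' : Type} [AddCommGroup W] [Module ℂ W] [AddCommGroup W'] [Module ℂ W']
    (π : W' →ₗ[ℂ] W), Function.Surjective π → ∀ C : W → Prop, Gen C → Gen (fun Z => C (π Z))

/-- GKR (short; uses: T1). kernel of dimension `≤ k` is generic as soon as it holds once. -/
def GKR_stmt : Prop :=
  ∀ {E J W : Type} [AddCommGroup E] [Module ℂ E] [Module.Finite ℂ E] [Finite J]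
    [AddCommGroup W] [Module ℂ W] (B : W → E →ₗ[ℂ] (J → ℂ)),
    (∀ Z₀ Z₁ v j, PolyFun (fun t : ℂ => B (Z₀ + t • (Z₁ - Z₀)) v j)) →
    ∀ k : ℕ, (∃ Z, finrank ℂ (LinearMap.ker (B Z)) ≤ k) →
      Gen (fun Z => finrank ℂ (LinearMap.ker (B Z)) ≤ k)

/-- UG (medium; uses: GAL, GPB, GKR). Uniform configurations are generic.
PROOF. For `s : Fin a ↪ Fin n`, `t : Fin b ↪ Fin n` the property
`finrank (Ker Φ (x ∘ s) (y ∘ t)) ≤ dmin Φ a b` (equivalently `=`, by `dmin_le`) is generic: `Ker` is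
the kernel of the map `E → ((Fin a ⊕ Fin b) × J → ℂ)`, `v ↦ (Φ true (x (s i)) v j, Φ false (y (t i))
v j)`, polynomial on lines by `LinePoly`; it holds somewhere: take `(x',y')` from `exists_dmin` and
extend to `Fin n` (the embedding `s` has a left inverse). There are finitely many `(a,b,s,t)`
(`a, b ≤ n`): index them by `Σ a : Fin (n+1), Σ b : Fin (n+1), (Fin a ↪ Fin n) × (Fin b ↪ Fin n)`. -/
def UG_stmt : Prop :=
  ∀ {E P J : Type} [AddCommGroup E] [Module ℂ E] [Module.Finite ℂ E] [AddCommGroup P]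
    [Module ℂ P] [Finite J] (Φ : Bool → P → E →ₗ[ℂ] (J → ℂ)), LinePoly Φ →
    ∀ n : ℕ, Gen (fun Z : (Fin n → P) × (Fin n → P) => Uniform Φ n Z.1 Z.2)

/-- BCA (LONG; uses: T1). THE DROP LEMMA. `(x,y)` uniform of size `n ≥ 2a, 2b+1`; if
`cc (a+1) b = cc a b = cc a (b+1) < cc 0 0`, then no element of `Ker Φ (x ∘ s) (y ∘ t)` (`a` points
of type true, `b` of type false) is visible.
PROOF. Suppose `f ∈ Ker (x ∘ s) (y ∘ t)`, `V f`. Choose `s' : Fin a ↪ Fin n` with range disjoint from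
that of `s`, `t'` disjoint from `t`, and `o ∉ range t ∪ range t'` (`n ≥ 2a`, `n ≥ 2b+1`).
For `S, T` finite sets of indices (`o ∉ T`) let `K(S,T) = {v | Φ true (x i) v = 0 (i ∈ S),
Φ false (y i) v = 0 (i ∈ T)}` and `U(S,T) = Φ false (y o) (K(S,T))`. `dim U(S,T) = dim K(S,T) -
dim K(S,T ∪ {o}) = cc |S| |T|` by uniformity (choose embeddings with range `S`, `T`).
EXCHANGE: `|S| = |S'| = a`, `|S ∪ S'| = a+1`: `U(S ∪ S', T) ⊆ U(S,T) ∩ U(S',T)` and all three have
the same dimension `cc (a+1) b = cc a b`, so `U(S,T) = U(S',T)`; same for `T` with `cc a (b+1)`.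
Exchanging one index after the other: `U(range s, range t) = U(range s', range t')`.
`dim U(range s', range t') = cc a b < cc 0 0 = dim Φ false (y o) E`: choose a linear functional `l` on
`J → ℂ` vanishing on `U(range s', range t')` but not on `Φ false (y o) E`.
DEFORMATION: apply `Deformable` to `f`, `x₀ = y o`, `l`: get `α, H`. For `τ ∈ ℂ` replace `x i`
(`i ∈ range s`) by `α τ (x i)` and `y i` (`i ∈ range t`) by `α τ (y i)`; all other points unchanged.
For `τ = 0` this is the old configuration. For each of the finitely many pairs `(S,T)` of subsets the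
kernel has, for all but finitely many `τ`, dimension `≤ dmin` (T1 along the curve, entries polynomial
in `τ`), so `= dmin` by `dmin_le`. For such `τ` the exchange argument gives
`U_τ(range s, range t) = U(range s', range t')` (the right side does not depend on `τ`), and
`H τ f ∈ K_τ(range s, range t)`. So `l (Φ false (y o) (H τ f)) = 0` for all but finitely many `τ`;
it is a `PolyFun` in `τ` (finite sum of `l` of coordinate vectors times coordinates), so it vanishes
for `τ = 1`: contradiction. (Do the exchange argument once as a lemma for an arbitrary configuration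
all of whose subconfigurations in question have the minimal dimension.) -/
def BCA_stmt : Prop :=
  ∀ {E P J : Type} [AddCommGroup E] [Module ℂ E] [Module.Finite ℂ E] [AddCommGroup P]
    [Module ℂ P] [Finite J] (Φ : Bool → P → E →ₗ[ℂ] (J → ℂ)) (V : E → Prop),
    Deformable Φ V → ∀ (n a b : ℕ) (x y : Fin n → P), Uniform Φ n x y → 2 * a ≤ n → 2 * b + 1 ≤ n →
    cc Φ (a + 1) b = cc Φ a b → cc Φ a (b + 1) = cc Φ a b → cc Φ a b < cc Φ 0 0 →
    ∀ (s : Fin a ↪ Fin n) (t : Fin b ↪ Fin n), ∀ f ∈ Ker Φ (x ∘ s) (y ∘ t), ¬ V f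

/-- MON (medium; uses: UG). Monotonicity.
PROOF. Take a uniform configuration of size `n = a + b + 2`. `Ker (a+1,b) ⊆ Ker (a,b)` (drop a
point) gives the first two. For the rank statements: `cc a b = dim (Φ false (y o) Ker(a,b))` for a
further index `o`, and the image of the smaller kernel is contained in the image of the larger. -/
def MON_stmt : Prop :=
  ∀ {E P J : Type} [AddCommGroup E] [Module ℂ E] [Module.Finite ℂ E] [AddCommGroup P]
    [Module ℂ P] [Finite J] (Φ : Bool → P → E →ₗ[ℂ] (J → ℂ)), LinePoly Φ → ∀ a b : ℕ,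
    dmin Φ (a + 1) b ≤ dmin Φ a b ∧ dmin Φ a (b + 1) ≤ dmin Φ a b ∧
    cc Φ (a + 1) b ≤ cc Φ a b ∧ cc Φ a (b + 1) ≤ cc Φ a b

/-- RKB (short). Rank bounds (`dmin 0 0 = dim E`).
PROOF. `Ker` with one more point is the kernel of `Φ τ x` on `Ker`, so its dimension is
`≥ dim Ker - rank`. For the last: at the given point `Ker` of `(0,1)` has dimension `dim E - rank`. -/
def RKB_stmt : Prop :=
  ∀ {E P J : Type} [AddCommGroup E] [Module ℂ E] [Module.Finite ℂ E] [AddCommGroup P]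
    [Module ℂ P] [Finite J] (Φ : Bool → P → E →ₗ[ℂ] (J → ℂ)),
    dmin Φ 0 0 = finrank ℂ E ∧
    (∀ D : ℕ, (∀ x, finrank ℂ (LinearMap.range (Φ true x)) ≤ D) →
      ∀ a b, dmin Φ a b ≤ dmin Φ (a + 1) b + D) ∧
    (∀ D : ℕ, (∀ x, finrank ℂ (LinearMap.range (Φ false x)) ≤ D) →
      ∀ a b, dmin Φ a b ≤ dmin Φ a (b + 1) + D) ∧
    (∀ (D : ℕ) (x : P), D ≤ finrank ℂ (LinearMap.range (Φ false x)) → dmin Φ 0 1 + D ≤ dmin Φ 0 0)

/-- ZER (short). If `cc a b = 0` then (on a kernel of minimal dimension) nothing is visible.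
PROOF. Let `f ∈ Ker x y`, `V f`, `Φ false p f ≠ 0`. Then `Ker x (y,p)` is strictly smaller than
`Ker x y`, so `dmin a (b+1) < dmin a b`, so `cc a b > 0` (`Fin.snoc` for `(y,p)`). -/
def ZER_stmt : Prop :=
  ∀ {E P J : Type} [AddCommGroup E] [Module ℂ E] [Module.Finite ℂ E] [AddCommGroup P]
    [Module ℂ P] [Finite J] (Φ : Bool → P → E →ₗ[ℂ] (J → ℂ)) (V : E → Prop),
    (∀ f, V f → ∃ p, Φ false p f ≠ 0) → ∀ (a b : ℕ) (x : Fin a → P) (y : Fin b → P),
    cc Φ a b = 0 → finrank ℂ (Ker Φ x y) = dmin Φ a b → ∀ f ∈ Ker Φ x y, ¬ V f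

/-- SQN (short; natural numbers). PROOF. Put `c r = d r - d (r+1)`. Let `m` be the least index with
`c m < D` (it exists, otherwise `d` would tend to `-∞`); for `r ≤ m` we have `d r = d 0 - r D`, in
particular `m * D ≤ d 0`, `m ≤ d 0 / D`. After `m`: `c (m+i) ≤ D - 1 - i` (truncated), because `c`
is non increasing and `c (r+1) = c r < D` forces `c r = 0`. So `c (m + D - 1) = 0`, whence
`d (m + D - 1) = 0`, which is the second claim. If the first claim failed at `b` then `m < b`, so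
`m ≤ b - 1` and `d m = d 0 - m D ≥ d 0 - (b-1) D > D (D-1)/2`, but
`d m = ∑_{i < D-1} c (m+i) ≤ (D-1) + (D-2) + ... + 1 = D (D-1)/2`. -/
def SQN_stmt : Prop :=
  ∀ (d : ℕ → ℕ) (D : ℕ), 1 ≤ D → (∀ r, d (r + 1) ≤ d r) → (∀ r, d r ≤ d (r + 1) + D) →
    (∀ r, d (r + 1) - d (r + 2) ≤ d r - d (r + 1)) →
    (∀ r, d (r + 1) - d (r + 2) = d r - d (r + 1) → d r - d (r + 1) = D ∨ d r = d (r + 1)) →
    (∀ r, d r = d (r + 1) → d r = 0) →
    ∀ b, (1 ≤ b → (b - 1) * D + D * (D - 1) / 2 < d 0 → d b + b * D = d 0) ∧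
      (d 0 / D + D - 1 ≤ b → d b = 0)

/-! ## Part B: multihomogeneous polynomials -/

/-- PLY (short). Evaluation of a polynomial along a polynomial curve; `LinePoly` for `Phi`, `Phi1`.
PROOF. First part by induction on the polynomial. Then `gradL_apply`, `cut` of a line is a line. -/
def PLY_stmt : Prop :=
  ∀ {ι κ : Type} [Fintype ι] [DecidableEq ι] [Fintype κ] [DecidableEq κ],
    (∀ (p : ι → ℂ → ℂ), (∀ i, PolyFun (p i)) → ∀ f : MvPolynomial ι ℂ,
      PolyFun (fun t => eval (fun i => p i t) f)) ∧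
    (∀ (c : ι → κ) (A B : Finset ι) (d : κ → ℕ), LinePoly (Phi c A B d)) ∧
    (∀ (c : ι → κ) (A : Finset ι) (d : κ → ℕ), LinePoly (Phi1 c A d))

/-- EUL (short). Euler relation. PROOF: for a monomial, then by linearity. -/
def EUL_stmt : Prop :=
  ∀ {ι κ : Type} [Fintype ι] [DecidableEq ι] [Fintype κ] [DecidableEq κ] (c : ι → κ)
    (A : Finset ι) (d : κ → ℕ), ∀ f ∈ Sec c A d, ∀ (k : κ) (x : ι → ℂ),
    ∑ i ∈ Finset.univ.filter (fun i => c i = k), x i * eval x (pderiv i f) = (d k : ℂ) * eval x f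

/-- HOM (short). Homogeneity of `f` and of its derivatives under scaling of the colours, and
`pderiv i f = 0` for `i ∉ A`. PROOF: on monomials. -/
def HOM_stmt : Prop :=
  ∀ {ι κ : Type} [Fintype ι] [DecidableEq ι] [Fintype κ] [DecidableEq κ] (c : ι → κ)
    (A : Finset ι) (d : κ → ℕ), ∀ f ∈ Sec c A d,
    (∀ (s : κ → ℂ) (x : ι → ℂ), eval (fun i => s (c i) * x i) f = (∏ k, s k ^ d k) * eval x f) ∧
    (∀ (s : κ → ℂ) (x : ι → ℂ) (i : ι), eval x (pderiv i f) = 0 →
      eval (fun i => s (c i) * x i) (pderiv i f) = 0) ∧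
    (∀ i ∉ A, pderiv i f = 0) ∧ (∀ i, pderiv i f ∈ Sec c A (low d (c i)) ∨ pderiv i f = 0) ∧
    (∀ x : ι → ℂ, eval (cut A x) f = eval x f)

/-- CHN (medium). Chain rule for substitutions. PROOF: induction on `f` (constants, sums, `f * X`),
`pderiv` is a derivation, `bind₁` an algebra map. -/
def CHN_stmt : Prop :=
  ∀ {ι : Type} [Fintype ι] [DecidableEq ι] (φ : ι → MvPolynomial ι ℂ) (f : MvPolynomial ι ℂ)
    (j : ι), pderiv j (bind₁ φ f) = ∑ i, bind₁ φ (pderiv i f) * pderiv j (φ i)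

/-- The substitution of the deformation: on the variables of `A` of colour `k`
`x ↦ (1-t) x + t L_k(x) w_k` with `L_k(x) = ∑_{j ∈ A, c j = k} L_j x_j`; identity outside `A`. -/
noncomputable def hsub {ι κ : Type} [Fintype ι] [DecidableEq ι] [Fintype κ] [DecidableEq κ]
    (c : ι → κ) (A : Finset ι) (L w : ι → ℂ) (t : ℂ) (i : ι) : MvPolynomial ι ℂ :=
  if i ∈ A then C (1 - t) * X i + C (t * w i) * ∑ j ∈ A.filter (fun j => c j = c i), C (L j) * X j
  else X i

/-- the value `L_k(x)` -/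
noncomputable def Lval {ι κ : Type} [Fintype ι] [DecidableEq ι] [Fintype κ] [DecidableEq κ]
    (c : ι → κ) (A : Finset ι) (L x : ι → ℂ) (k : κ) : ℂ :=
  ∑ j ∈ A.filter (fun j => c j = k), L j * x j

/-- The motion of the points. -/
noncomputable def hpt {ι κ : Type} [Fintype ι] [DecidableEq ι] [Fintype κ] [DecidableEq κ]
    (c : ι → κ) (A : Finset ι) (L w : ι → ℂ) (t : ℂ) (x : ι → ℂ) (i : ι) : ℂ :=
  if i ∈ A then (1 - t + t * Lval c A L w (c i)) * x i - t * Lval c A L x (c i) * w i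
  else (1 - t) * (1 - t + t * Lval c A L w (c i)) * x i

/-- HSB (medium). The substitution preserves `Sec c B d` (`A ⊆ B`).
PROOF. `Sec c B d` is spanned by monomials `∏ X_i^{m_i}`, `m ∈ Mon c B d`; `hsub` of `X i` is a
linear form in variables of the same colour contained in `B`; products of multihomogeneous
polynomials are multihomogeneous (degrees add). -/
def HSB_stmt : Prop :=
  ∀ {ι κ : Type} [Fintype ι] [DecidableEq ι] [Fintype κ] [DecidableEq κ] (c : ι → κ)
    (A B : Finset ι) (d : κ → ℕ), A ⊆ B → ∀ (L w : ι → ℂ) (t : ℂ), ∀ f ∈ Sec c B d,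
    bind₁ (hsub c A L w t) f ∈ Sec c B d

/-- HPT (medium; uses: CHN, HOM). If `f` is singular at `x` then the deformed `f` is singular at the
moved point; same for the condition on the coordinate subspace of `A`; at `t = 0` nothing moves.
PROOF. Let `h` = the linear map `y ↦ (eval y (hsub .. i))_i`. Computation:
`h (hpt t x) i = s (c i) * x i` with `s k = (1-t)(1-t+t L_k(w))`: for `i ∈ A`:
`L_k(hpt t x) = (1-t+t L_k(w)) L_k(x) - t L_k(x) L_k(w) = (1-t) L_k(x)`, so
`(1-t) hpt_i + t L_k(hpt) w_i = (1-t)[(1-t+tL_k(w)) x_i - t L_k(x) w_i] + t(1-t) L_k(x) w_i`.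
By CHN `eval (hpt x) (pderiv j (f∘h)) = ∑_i eval (h (hpt x)) (pderiv i f) * (const ∂h_i/∂x_j)`
(`eval y (bind₁ φ g) = eval (fun i => eval y (φ i)) g`) and each `eval (s∘c * x) (pderiv i f) = 0`
by HOM. For `false`: `hpt t (cut A x) = cut A (hpt t x)` (the formula for `i ∉ A` gives `0`), and
for `j ∈ A` only `i ∈ A` contribute (`∂(X i)/∂x_j = 0` for `i ∉ A`). -/
def HPT_stmt : Prop :=
  ∀ {ι κ : Type} [Fintype ι] [DecidableEq ι] [Fintype κ] [DecidableEq κ] (c : ι → κ)
    (A B : Finset ι) (d : κ → ℕ), A ⊆ B → ∀ (L w : ι → ℂ) (t : ℂ), ∀ f ∈ Sec c B d, ∀ x : ι → ℂ,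
    (gradL B x f = 0 → gradL B (hpt c A L w t x) (bind₁ (hsub c A L w t) f) = 0) ∧
    (gradL A (cut A x) f = 0 →
      gradL A (cut A (hpt c A L w t x)) (bind₁ (hsub c A L w t) f) = 0) ∧
    hpt c A L w 0 x = x

/-- The product of powers `∏_k L_k^{d_k}` -/
noncomputable def Lprod {ι κ : Type} [Fintype ι] [DecidableEq ι] [Fintype κ] [DecidableEq κ]
    (c : ι → κ) (A : Finset ι) (d : κ → ℕ) (L : ι → ℂ) : MvPolynomial ι ℂ :=
  ∏ k, (∑ j ∈ A.filter (fun j => c j = k), C (L j) * X j) ^ d k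

/-- HON (medium; uses: HOM). At `t = 1` the restriction to the coordinate subspace of `A` becomes
`f(w) ∏ L_k^{d_k}`; so does the gradient there.
PROOF. For `y` with `y = cut A y`: `eval y (bind₁ (hsub 1) f) = eval (fun i => eval y (hsub 1 i)) f`
and for `i ∈ A` `eval y (hsub 1 i) = w i * L_{c i}(y)`, for `i ∉ A` it is `y i = 0`; so this is
`eval (fun i => L_{c i}(y) * cut A w i) f = ∏_k L_k(y)^{d_k} * eval (cut A w) f` (HOM). Hence the
polynomials `g = bind₁ (hsub 1) f` and `e * Lprod` (`e = eval (cut A w) f`) agree at all points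
`cut A y`. Their derivatives in directions `j ∈ A` at `cut A x` agree too: the polynomial
`g - e * Lprod` vanishes after the substitution `X i ↦ 0 (i ∉ A)` (a polynomial vanishing at all
points is `0`), and this substitution commutes with `pderiv j`, `j ∈ A`. -/
def HON_stmt : Prop :=
  ∀ {ι κ : Type} [Fintype ι] [DecidableEq ι] [Fintype κ] [DecidableEq κ] (c : ι → κ)
    (A B : Finset ι) (d : κ → ℕ), A ⊆ B → ∀ (L w : ι → ℂ), ∀ f ∈ Sec c B d, ∀ x : ι → ℂ,
    gradL A (cut A x) (bind₁ (hsub c A L w 1) f) =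
      eval (cut A w) f • gradL A (cut A x) (Lprod c A d L)

/-- SPN (medium). The products `∏ L_k^{d_k}` span: a linear functional `μ` on the polynomials which
kills all `Lprod c A d L` kills `Sec c A d`.
PROOF. Let `μ (X^m)`, `m ∈ Mon c A d`, be given. For fixed `L` expand: `Lprod = ∑_{m ∈ Mon c A d}
a_m (∏ L_i^{m_i}) X^m` with positive integers `a_m` (products of multinomial coefficients;
`Finset.sum_pow_of_commute`/`Finset.sum_pow_eq_sum_piAntidiag`). So the polynomial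
`Q(L) = ∑_m a_m μ(X^m) ∏ L_i^{m_i}` vanishes at all `L : ι → ℂ`; a polynomial vanishing everywhere
is zero (`MvPolynomial.funext`), so all `a_m μ(X^m) = 0`, `μ (X^m) = 0`.
(Alternative: induction on the number of colours/differentiation; any proof is fine.) -/
def SPN_stmt : Prop :=
  ∀ {ι κ : Type} [Fintype ι] [DecidableEq ι] [Fintype κ] [DecidableEq κ] (c : ι → κ)
    (A : Finset ι) (d : κ → ℕ) (μ : MvPolynomial ι ℂ →ₗ[ℂ] ℂ), (∀ L, μ (Lprod c A d L) = 0) →
    ∀ f ∈ Sec c A d, μ f = 0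

/-- CUT (short). Cutting: the substitution `X i ↦ 0 (i ∉ A)` maps `Sec c B d` to `Sec c A d`
(`A ⊆ B`) and keeps the gradient along `A` at points of the coordinate subspace; conversely
`Sec c A d ≤ Sec c B d`. -/
def CUT_stmt : Prop :=
  ∀ {ι κ : Type} [Fintype ι] [DecidableEq ι] [Fintype κ] [DecidableEq κ] (c : ι → κ)
    (A B : Finset ι) (d : κ → ℕ), A ⊆ B → Sec c A d ≤ Sec c B d ∧ ∀ f ∈ Sec c B d,
    ∃ g ∈ Sec c A d, (∀ x, eval (cut A x) g = eval (cut A x) f) ∧
      ∀ x, gradL A (cut A x) g = gradL A (cut A x) f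

/-- DFM (medium; uses: PLY, HOM, HSB, HPT, HON, SPN, CUT). `Phi` and `Phi1` have the deformation
property, visible = does not vanish identically on the coordinate subspace of `A`.
PROOF. Given `f` with `e = eval (cut A w) f ≠ 0`, `x₀`, `l` and `g` with `l (Φ false x₀ g) ≠ 0`.
By CUT we may take `g ∈ Sec c A d`; by SPN applied to `μ = l ∘ gradL A (cut A x₀)` there is `L` with
`l (gradL A (cut A x₀) (Lprod c A d L)) ≠ 0`. Put `α t = hpt c A L w t`,
`H t f' = ⟨bind₁ (hsub c A L w t) f', HSB⟩`. Conditions: HPT (third and fourth), PLY for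
`t ↦ Φ τ (α t x) v j` (`hpt` is polynomial in `t`), `t ↦ Φ false x (H t f) j` is polynomial in `t`:
`eval y (pderiv j (bind₁ φ_t f))` is by CHN a sum of `eval (h_t y) (pderiv i f) * const(t)` (or: the
coefficients of `bind₁ (hsub t) f` are polynomials in `t`, induction on `f`), and HON for `t = 1`.
For `Phi1` (`A = B`) the conditions of type `true` are `0`. -/
def DFM_stmt : Prop :=
  ∀ {ι κ : Type} [Fintype ι] [DecidableEq ι] [Fintype κ] [DecidableEq κ] (c : ι → κ)
    (A B : Finset ι) (d : κ → ℕ), A ⊆ B →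
    Deformable (Phi c A B d)
      (fun f : ↥(Sec c B d) => ∃ w : ι → ℂ, eval (cut A w) (f : MvPolynomial ι ℂ) ≠ 0) ∧
    Deformable (Phi1 c A d)
      (fun f : ↥(Sec c A d) => ∃ w : ι → ℂ, eval (cut A w) (f : MvPolynomial ι ℂ) ≠ 0)

/-- RKU (medium; uses: EUL, HOM, T1, PLY, CUT). Upper bound for the rank of the gradient.
PROOF. (i) Let `x` have, for every colour `k`, a non zero coordinate `x (o k)`, `o k ∈ A`,
`c (o k) = k`. On `Sec c A d` consider the map `g ↦ (g(x), (∂_i g(x))_i)` with `i ∈ A`, `i ≠ o (c i)`,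
`d (c i) ≥ 1`: its target has dimension `1 + ∑_{k : d k ≥ 1} (|A_k| - 1) = Dk c A d`, and its kernel
is contained in the kernel of the gradient: `∂_i g = 0` if `d (c i) = 0` (HOM: no monomial contains
`X i`), and `x_{o k} ∂_{o k} g(x) = d_k g(x) - ∑_{others} x_i ∂_i g(x) = 0` (EUL). So rank `≤ Dk`.
(ii) general `x`: if the kernel of the gradient at `x` had dimension `< dim - Dk`, then by T1 also at
`x + t (1 - x)` (`1` = the all-one point) for all but finitely many `t`, and for all but finitely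
many `t` this point has non zero coordinates: contradiction to (i).
(iii) For `Phi c A B d false x`: by CUT the gradient along `A` at `cut A x` factors over `Sec c A d`,
so its rank is `≤` the rank on `Sec c A d`; for `true` use (ii) with `B` (`gradL B x` on
`Sec c B d` only depends on `cut B x`). -/
def RKU_stmt : Prop :=
  ∀ {ι κ : Type} [Fintype ι] [DecidableEq ι] [Fintype κ] [DecidableEq κ] (c : ι → κ)
    (A B : Finset ι) (d : κ → ℕ), A ⊆ B → (∀ k, ∃ i ∈ A, c i = k) → ∀ x : ι → ℂ,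
    finrank ℂ (LinearMap.range (Phi1 c A d false x)) ≤ Dk c A d ∧
    finrank ℂ (LinearMap.range (Phi c A B d false x)) ≤ Dk c A d ∧
    finrank ℂ (LinearMap.range (Phi c A B d true x)) ≤ Dk c B d

/-- RKL (medium; uses: CUT). Lower bound for the rank of the gradient at one point.
PROOF. Choose `o k ∈ A` of colour `k`, `x = 1` at the `o k`, `0` elsewhere (`cut A x = x`).
`g₀ = ∏_k X_{o k}^{d k}`, and for `i ∈ A`, `d (c i) ≥ 1`, `i ≠ o (c i)`:
`g_i = X_i X_{o (c i)}^{d (c i) - 1} ∏_{k ≠ c i} X_{o k}^{d k}`. The gradient of `g_i` at `x` is the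
`i`-th coordinate vector, that of `g₀` is `∑_k d_k e_{o k} ≠ 0` (some `d k ≥ 1`): together linearly
independent, `Dk c A d` vectors. For `Phi c A B d` use `Sec c A d ≤ Sec c B d`. -/
def RKL_stmt : Prop :=
  ∀ {ι κ : Type} [Fintype ι] [DecidableEq ι] [Fintype κ] [DecidableEq κ] (c : ι → κ)
    (A B : Finset ι) (d : κ → ℕ), A ⊆ B → (∀ k, ∃ i ∈ A, c i = k) → (∃ k, 1 ≤ d k) →
    ∃ x : ι → ℂ, Dk c A d ≤ finrank ℂ (LinearMap.range (Phi1 c A d false x)) ∧
      Dk c A d ≤ finrank ℂ (LinearMap.range (Phi c A B d false x))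

/-- VIS (short; uses: EUL). A polynomial of positive degree which does not vanish on the coordinate
subspace of `A` has a non zero gradient along `A` somewhere on it.
PROOF. `f (w) ≠ 0`, `w = cut A w`, `d k ≥ 1`: EUL at `w`: `∑_{c i = k} w_i ∂_i f(w) = d_k f(w) ≠ 0`
and `w_i = 0` for `i ∉ A`. -/
def VIS_stmt : Prop :=
  ∀ {ι κ : Type} [Fintype ι] [DecidableEq ι] [Fintype κ] [DecidableEq κ] (c : ι → κ)
    (A B : Finset ι) (d : κ → ℕ), (∃ k, 1 ≤ d k) → ∀ f ∈ Sec c B d,
    (∃ w : ι → ℂ, eval (cut A w) f ≠ 0) → ∃ p : ι → ℂ, gradL A (cut A p) f ≠ 0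

/-- ONE (medium; uses: SQN, MON, RKB, RKU, RKL, BCA, ZER, DFM, VIS, UG, PLY). One type of points:
non-defectivity below the window, vanishing above the window.
PROOF. `Φ = Phi1 c A d`, `D = Dk c A d ≥ 1`, `d r := dmin Φ 0 r`. Since `Φ true = 0`,
`Ker Φ x y` does not depend on `x` and `dmin Φ a b = dmin Φ 0 b`, `cc Φ a b = cc Φ 0 b`. SQN applies:
monotonicity MON, drop `≤ D` RKB + RKU, `dmin Φ 0 0 = finrank (Sec c A d)` (RKB). If
`cc 0 (r+1) = cc 0 r` then either `cc 0 r = D` or `cc 0 r < D = cc 0 0` (RKB with RKU, RKL) and BCA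
for a uniform configuration (UG, `n = 2r+1`) says that all `f` in the kernel vanish at all
`cut A w`, so `f = 0` (HOM: `eval (cut A x) f = eval x f` for `f ∈ Sec c A d`; a polynomial vanishing
everywhere is `0`): `dmin Φ 0 r = 0`, hence `d r = d (r+1)`. If `d r = d (r+1)` then `cc 0 r = 0`
and ZER (with VIS) gives `d r = 0` in the same way. -/
def ONE_stmt : Prop :=
  ∀ {ι κ : Type} [Fintype ι] [DecidableEq ι] [Fintype κ] [DecidableEq κ] (c : ι → κ)
    (A : Finset ι) (d : κ → ℕ), (∀ k, ∃ i ∈ A, c i = k) → (∃ k, 1 ≤ d k) → ∀ b : ℕ,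
    (1 ≤ b → (b - 1) * Dk c A d + Dk c A d * (Dk c A d - 1) / 2 < finrank ℂ (Sec c A d) →
      dmin (Phi1 c A d) 0 b + b * Dk c A d = finrank ℂ (Sec c A d)) ∧
    (finrank ℂ (Sec c A d) / Dk c A d + Dk c A d - 1 ≤ b → dmin (Phi1 c A d) 0 b = 0)

/-- RST (medium; uses: EUL, HOM). Restriction to the hyperplane `X z = 0`.
PROOF. (1) `g ∈ Sec c univ d` vanishes on the hyperplane: every monomial contains `X z` (the
substitution `X z ↦ 0` gives the zero polynomial), so `g = X z * g'` and `g'` is multihomogeneous of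
multidegree `low d (c z)` (`d (c z) ≥ 1` if `g ≠ 0`; if `g = 0` take `g' = 0`).
(2) If `X z * g'` is singular at `s`, `s z ≠ 0`, and some colour `k ≠ c z` has `1 ≤ d k`
(`g' ∈ Sec c univ d`): for `i ≠ z` `s z * ∂_i g'(s) = 0`, so EUL for the colour `k` gives
`g'(s) = 0`, and then `s z * ∂_z g'(s) + g'(s) = 0` gives `∂_z g'(s) = 0`. -/
def RST_stmt : Prop :=
  ∀ {ι κ : Type} [Fintype ι] [DecidableEq ι] [Fintype κ] [DecidableEq κ] (c : ι → κ) (z : ι)
    (d : κ → ℕ),
    (∀ g ∈ Sec c Finset.univ d, (∀ w : ι → ℂ, eval (cut (Finset.univ.erase z) w) g = 0) →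
      ∃ g' ∈ Sec c Finset.univ (low d (c z)), g = X z * g') ∧
    (∀ g' ∈ Sec c Finset.univ d, ∀ (k : κ), k ≠ c z → 1 ≤ d k → ∀ s : ι → ℂ, s z ≠ 0 →
      (∀ i, eval s (pderiv i (X z * g')) = 0) → ∀ i, eval s (pderiv i g') = 0)

/-- SMP (short). General simple points. `Q` a finite dimensional space of polynomials none of which
(except `0`) vanishes on the coordinate subspace of `A`: there are `u` points of the subspace which
lower the dimension by `u` (or kill `Q`).
PROOF. Induction on `u`: if the current space is not `0` take `g ≠ 0` in it and `w` with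
`eval (cut A w) g ≠ 0`: evaluation at `cut A w` is a non zero functional. -/
def SMP_stmt : Prop :=
  ∀ {ι : Type} [Fintype ι] [DecidableEq ι] (A : Finset ι) (Q : Submodule ℂ (MvPolynomial ι ℂ))
    [Module.Finite ℂ Q], (∀ g ∈ Q, (∀ w : ι → ℂ, eval (cut A w) g = 0) → g = 0) → ∀ u : ℕ,
    ∃ q : Fin u → ι → ℂ,
      finrank ℂ ↥(Q ⊓ ⨅ j, LinearMap.ker (evL (cut A (q j)))) ≤ finrank ℂ Q - u

/-! ## Part C: the residual problem, the Horace lemma, the core -/

/-- PTH (LONG; uses: BCA, ZER, MON, RKB, RKU, RKL, DFM, VIS, UG, GAL, GPB, GKR, PLY, RST).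
Step 5 (c): `δ` points of type `false` (in the hyperplane `X z = 0`, `A = univ.erase z`) impose
independent conditions after `r` points of type `true`.
Here `d` is the multidegree of the residual bundle (all `d k ≥ 1`), `Φ = Phi c A univ d`,
`D = Dk c univ d`, `N = Dk c A d`.
(A2): the polynomials of multidegree `low d (c z)` singular at `r` general points are `0`.
PROOF. First: for `a ≥ r` and every `b`, on a generic configuration no non zero element of
`Ker Φ x y` (`a` points of type true) vanishes on the hyperplane: if `g` does, `g = X z * g'` (RST1)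
and `g'` is singular at the points `x i` (RST2, the coordinate `z` of general points is `≠ 0`), so
`g' = 0` because `dmin (Phi1 c univ (low d (c z))) 0 r = 0` and this is a generic property of
`x` (GKR; if `low d (c z)` is `0` at `c z` nothing changes). Generic = combine with `Uniform` by GAL,
GPB. So with a configuration which is uniform of size `n` large and has this property, BCA and ZER say:
 (*) for `a ≥ r`: if `cc (a+1) b = cc a b = cc a (b+1) < cc 0 0`, or if `cc a b = 0`, then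
 `dmin a b = 0`.
Claim: `cc r b = N` for all `b < δ`. Suppose `cc r b₀ < N = cc 0 0` (RKB, RKU, RKL) for some
`b₀ < δ`. Starting from `(r, b₀)` increase one of the coordinates by one as long as `cc > 0`, so that
`cc` drops by at least one each time (possible by MON and (*) as long as `dmin > 0`); after
`i ≤ N - 1` steps we reach `(a,b)`, `a + b = r + b₀ + i`, with `cc a b = 0` or `dmin a b = 0`, so
`dmin a b = 0`. But by RKB, RKU `dmin a b ≥ dmin 0 0 - a D - b N`, and `a = r + i₁`, `b = b₀ + i₂`,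
`i₁ + i₂ ≤ N - 1`, `N ≤ D`: `dmin a b ≥ dim E - r D - b₀ N - (N-1) D ≥ dim E - r D - (δ-1) N -
(N-1) D > 0` by the hypothesis `hlarge`. Contradiction. Hence `dmin r δ = dmin r 0 - δ N`. -/
def PTH_stmt : Prop :=
  ∀ {ι κ : Type} [Fintype ι] [DecidableEq ι] [Fintype κ] [DecidableEq κ] (c : ι → κ) (z : ι)
    (d : κ → ℕ) (r δ : ℕ),
    (∀ k, ∃ i, i ≠ z ∧ c i = k) → (∃ k, k ≠ c z) → (∀ k, 1 ≤ d k) →
    dmin (Phi1 c Finset.univ (low d (c z))) 0 r = 0 →
    r * Dk c Finset.univ d + δ * Dk c (Finset.univ.erase z) d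
      + (Dk c (Finset.univ.erase z) d - 1) * Dk c Finset.univ d
      < finrank ℂ (Sec c Finset.univ d) + Dk c (Finset.univ.erase z) d →
    dmin (Phi c (Finset.univ.erase z) Finset.univ d) r δ + δ * Dk c (Finset.univ.erase z) d =
      dmin (Phi c (Finset.univ.erase z) Finset.univ d) r 0

/-- PH0 (short). `r` points of type `true` for `Phi` = `r` points of type `false` for `Phi1` when
`A = univ`. PROOF: same kernels (`cut univ x = x`). -/
def PH0_stmt : Prop :=
  ∀ {ι κ : Type} [Fintype ι] [DecidableEq ι] [Fintype κ] [DecidableEq κ] (c : ι → κ)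
    (A : Finset ι) (d : κ → ℕ) (r : ℕ),
    dmin (Phi c A Finset.univ d) r 0 = dmin (Phi1 c Finset.univ d) 0 r

/-- RES (medium; uses: PTH, PH0, SMP, GKR, GAL, GPB, PLY, RST). Step 5: the residual problem has the
expected dimension. `u` = number of simple points, `δ` = number of double points of the hyperplane,
`r` = number of general double points.
PROOF. By PTH and PH0: `dmin Φ r δ + δ N = dmin Φ r 0 = h' - r D`, i.e. `dmin Φ r δ = u + ρ` where
`ρ = h' - r D - δ N - u ≥ -N` (integer; `u + ρ ≥ 0`). Choose (GAL) a configuration `(s,p)` with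
`finrank (Ker Φ s p) = dmin Φ r δ` and for which no non zero `g` singular at all `s l` vanishes on
the hyperplane (as in PTH). Let `Q` = `Ker Φ s p` as a space of polynomials; SMP gives `q` with
`finrank (Q ∩ {g(q_j) = 0}) ≤ (u + ρ) - u`, truncated. This space is `Resid c z d q p s`. -/
def RES_stmt : Prop :=
  ∀ {ι κ : Type} [Fintype ι] [DecidableEq ι] [Fintype κ] [DecidableEq κ] (c : ι → κ) (z : ι)
    (d : κ → ℕ) (r δ u : ℕ),
    (∀ k, ∃ i, i ≠ z ∧ c i = k) → (∃ k, k ≠ c z) → (∀ k, 1 ≤ d k) →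
    dmin (Phi1 c Finset.univ (low d (c z))) 0 r = 0 →
    dmin (Phi1 c Finset.univ d) 0 r + r * Dk c Finset.univ d = finrank ℂ (Sec c Finset.univ d) →
    r * Dk c Finset.univ d + δ * Dk c (Finset.univ.erase z) d
      + (Dk c (Finset.univ.erase z) d - 1) * Dk c Finset.univ d
      < finrank ℂ (Sec c Finset.univ d) + Dk c (Finset.univ.erase z) d →
    ∃ (q : Fin u → ι → ℂ) (p : Fin δ → ι → ℂ) (s : Fin r → ι → ℂ),
      finrank ℂ ↥(Resid c z d q p s) ≤
        finrank ℂ (Sec c Finset.univ d) - r * Dk c Finset.univ d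
          - δ * Dk c (Finset.univ.erase z) d - u

/-- TRC (medium; uses: ONE, RKB, SMP, CUT, HOM). The trace: `u` double points and `δ` simple points of the
hyperplane kill `Sec c A d` (`A = univ.erase z`) if `u N + δ = dim` and `δ` is not too small.
PROOF. ONE for `A`: `dmin (Phi1 c A d) 0 u + u N = dim Sec c A d` (hypothesis `u = 0` or
`(u-1) N + N(N-1)/2 < dim`, i.e. `N(N-1)/2 < δ + N`), so `dmin = δ`; take `q` with this kernel
dimension (`exists_dmin`), then SMP with `δ` simple points. -/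
def TRC_stmt : Prop :=
  ∀ {ι κ : Type} [Fintype ι] [DecidableEq ι] [Fintype κ] [DecidableEq κ] (c : ι → κ) (z : ι)
    (d : κ → ℕ) (u δ : ℕ),
    (∀ k, ∃ i, i ≠ z ∧ c i = k) → (∃ k, 1 ≤ d k) →
    u * Dk c (Finset.univ.erase z) d + δ = finrank ℂ (Sec c (Finset.univ.erase z) d) →
    Dk c (Finset.univ.erase z) d * (Dk c (Finset.univ.erase z) d - 1) / 2
      < δ + Dk c (Finset.univ.erase z) d →
    ∃ (q : Fin u → ι → ℂ) (p : Fin δ → ι → ℂ), ∀ g ∈ Sec c (Finset.univ.erase z) d,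
      (∀ j, gradL (Finset.univ.erase z) (cut (Finset.univ.erase z) (q j)) g = 0) →
      (∀ i, eval (cut (Finset.univ.erase z) (p i)) g = 0) → g = 0

/-- AHL (LONG; uses: T1, EUL, HOM, RST, PLY, CUT). THE DIFFERENTIAL HORACE LEMMA (Alexander -
Hirschowitz) with arbitrarily many points; paper: Step 6. `A = univ.erase z`, `H = {x z = 0}`.
PROOF. For `ε ∈ ℂ` let `x_ε` = (`cut A (q j)`; `cut A (p i) + ε e_z`; `s l`). Suppose the claim is
false: for ALL configurations the space of singular `f` has dimension `> k`, in particular for all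
`x_ε`. Write `P_i = cut A (p i)`. For `f ∈ Sec c univ d` and `i` let
`F_i = aeval (fun v => if v = z then Polynomial.X else Polynomial.C (P_i v)) f ∈ ℂ[T]`,
`F_{i,a}` = same for `pderiv a f` (`a ≠ z`); `F_i.eval ε = f(P_i + ε e_z)`, `F_i'.eval ε =
∂_z f (P_i + ε e_z)` and `F_{i,a}.coeff 1 = ∂_z ∂_a f (P_i) = ∂_a f_1(P_i)`, `f_1 = ∂_z f`.
Let `G_i = divX (divX (F_i.coeff 0 - F_i + X F_i'))` and `K_{i,a} = divX (divX F_{i,a})`, so
`F_i(0) - F_i(ε) + ε F_i'(ε) = ε² G_i(ε)` (the polynomial `C F_i(0) - F_i + X F_i'` has zero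
coefficients of degree 0 and 1) and `F_{i,a}(ε) = F_{i,a}(0) + ε F_{i,a}.coeff 1 + ε² K_{i,a}(ε)`;
`G_i, K_{i,a}` are linear in `f`.
If `f` is singular at all points of `x_ε`: `F_i(ε) = 0` (EUL, a colour `k ≠ c z`, `d k ≥ 1`),
`F_i'(ε) = 0`, so `f(P_i) = ε² G_i(ε)`; `f_0` = `f` with `X z ↦ 0` lies in `Sec c A d`, its
gradient along `A` at `cut A (q j)` is `0`. Let `Θ : Sec c A d → ..`, `g ↦ (gradL A (cut A (q j)) g)_j,
(g(P_i))_i`, injective by (T); `Θ⁺` a left inverse (`LinearMap.exists_leftInverse_of_injective`).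
So `f_0 = ε² Θ⁺(0; (G_i(ε))_i)`. For `a ≠ z`: `0 = F_{i,a}(ε) = ∂_a f_0(P_i) + ε ∂_a f_1(P_i) +
ε² K_{i,a}(ε)`; insert `f_0` and divide by `ε ≠ 0`:
`∂_a f_1(P_i) + ε (∂_a [Θ⁺(0;G(ε))](P_i) + K_{i,a}(ε)) = 0`. Also `f_1(cut A (q j)) = 0` and
`∇f(s l) = 0`. Hence `f ∈ ker B(ε)`, where
`B(ε) f = (f_0 - ε² Θ⁺(0;G(ε)); ∂_a f_1(P_i) + ε(..); f_1(cut A (q j)); ∇f(s l))` (coordinates of
the first entry = coefficients at the finitely many monomials), polynomial in `ε`. `ker B(0) =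
{f : f_0 = 0, ∂_a f_1(P_i) = 0, f_1(cut A q_j) = 0, ∇f(s_l) = 0}`; by RST `f = X z * g`,
`g ∈ Sec c univ (low d (c z))`, `f_1 = g` on `H`, `∇g(s_l) = 0` (RST2, `s_l z ≠ 0`), so
`g ∈ Resid c z (low d (c z)) q p s` and `f ↦ g` is injective: `dim ker B(0) ≤ k`. T1: `dim ker B(ε) ≤ k`
for all but finitely many `ε`, choose `ε ≠ 0`: contradiction (reindex `x_ε` by `Fin (u + δ + r)`:
the statement only asks for SOME family of `u + δ + r` points). -/
def AHL_stmt : Prop :=
  ∀ {ι κ : Type} [Fintype ι] [DecidableEq ι] [Fintype κ] [DecidableEq κ] (c : ι → κ) (z : ι)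
    (d : κ → ℕ) (u δ r k : ℕ), (∃ k₁, k₁ ≠ c z ∧ 1 ≤ d k₁) → 1 ≤ d (c z) →
    ∀ (q : Fin u → ι → ℂ) (p : Fin δ → ι → ℂ) (s : Fin r → ι → ℂ), (∀ l, s l z ≠ 0) →
    (∀ g ∈ Sec c (Finset.univ.erase z) d,
      (∀ j, gradL (Finset.univ.erase z) (cut (Finset.univ.erase z) (q j)) g = 0) →
      (∀ i, eval (cut (Finset.univ.erase z) (p i)) g = 0) → g = 0) →
    finrank ℂ ↥(Resid c z (low d (c z)) q p s) ≤ k →
    ∃ x : Fin (u + δ + r) → ι → ℂ, finrank ℂ ↥(Sng c d x) ≤ k

/-- COR (medium; uses: RES, TRC, AHL, GKR, GAL, GPB, PLY, ONE, CUT). THE CORE. Notation: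
`h = dim Sec c univ d`, `D = Dk c univ d = N + 1`, `N = Dk c A d` (`A = univ.erase z`),
`d' = low d (c z)`, `d'' = low d' (c z)`. Numbers `u, δ, r'` with `u N + δ = dim Sec c A d`.
PROOF. TRC gives `(q,p)` with property (T): this is a generic property of `(q,p)`
(kernel of a linear map `≤ 0`: GKR, as the property `finrank (ker Θ) ≤ 0`), RES for `d'` gives
`(q,p,s)` with `finrank (Resid c z d' q p s) ≤ k := h' - r' D - δ N - u`, generic as well (GKR), and
`s l z ≠ 0` is generic. By GAL (with GPB) there is `(q,p,s)` with all three: AHL. Note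
`Dk c univ d = Dk c univ d'` and `Dk c A d = Dk c A d'` because all `d k, d' k ≥ 1`. -/
def COR_stmt : Prop :=
  ∀ {ι κ : Type} [Fintype ι] [DecidableEq ι] [Fintype κ] [DecidableEq κ] (c : ι → κ) (z : ι)
    (d : κ → ℕ) (r' δ u : ℕ),
    (∀ k, ∃ i, i ≠ z ∧ c i = k) → (∃ k, k ≠ c z) → (∀ k, 1 ≤ d k) → 2 ≤ d (c z) →
    -- trace
    u * Dk c (Finset.univ.erase z) d + δ = finrank ℂ (Sec c (Finset.univ.erase z) d) →
    Dk c (Finset.univ.erase z) d * (Dk c (Finset.univ.erase z) d - 1) / 2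
      < δ + Dk c (Finset.univ.erase z) d →
    -- (A1): the window for the residual bundle
    (1 ≤ r' → (r' - 1) * Dk c Finset.univ d + Dk c Finset.univ d * (Dk c Finset.univ d - 1) / 2
      < finrank ℂ (Sec c Finset.univ (low d (c z)))) →
    -- (A2): the window for the second residual bundle
    finrank ℂ (Sec c Finset.univ (low (low d (c z)) (c z)))
      / Dk c Finset.univ (low (low d (c z)) (c z))
      + Dk c Finset.univ (low (low d (c z)) (c z)) - 1 ≤ r' →
    -- (A3)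
    r' * Dk c Finset.univ d + δ * Dk c (Finset.univ.erase z) d
      + (Dk c (Finset.univ.erase z) d - 1) * Dk c Finset.univ d
      < finrank ℂ (Sec c Finset.univ (low d (c z))) + Dk c (Finset.univ.erase z) d →
    ∃ x : Fin (u + δ + r') → ι → ℂ, finrank ℂ ↥(Sng c d x) ≤
      finrank ℂ (Sec c Finset.univ (low d (c z))) - r' * Dk c Finset.univ d
        - δ * Dk c (Finset.univ.erase z) d - u

/-! ## Part D: dimensions and numbers -/

/-- DIM (medium). Number of monomials. PROOF. `finrank_Sec`: count `Mon c A d`; a monomial is a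
family (indexed by the colours `k`) of functions on `A_k = A.filter (c · = k)` with sum `d k`
(`Finset.piAntidiag`, `Finset.card_piAntidiag`, or `Sym`: `Sym.card_sym_eq_multichoose`). -/
def DIM_stmt : Prop :=
  ∀ {ι κ : Type} [Fintype ι] [DecidableEq ι] [Fintype κ] [DecidableEq κ] (c : ι → κ)
    (A : Finset ι) (d : κ → ℕ),
    finrank ℂ (Sec c A d) = ∏ k, Nat.multichoose (A.filter (fun i => c i = k)).card (d k)

/-- NUM (LONG; natural numbers; brute-force checked for 1.6 million data). `m = n_j`,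
`n = N - n_j`, `e = d_j`, `M = h_M = ∏_{i ≠ j} C(n_i + d_i, n_i)` (`M ≥ n + 1`).
`hH = M * multichoose m e`, `h' = M * multichoose (m+1) (e-1)`, `h'' = M * multichoose (m+1) (e-2)`,
`hj = M * multichoose m (e-1)`, `h = hH + h'`, `h' = hj + h''`. `D = N + 1`, `D'' = D` if `e ≥ 3`,
`D'' = n + 1` if `e = 2`. Then for `r ∈ {⌊h/D⌋, ⌈h/D⌉}` there are `u, δ, r'` with `r = u + δ + r'` and
all the conditions of COR; the final dimension is `≤ h - r D` (truncated).
PROOF. `B = N(N-1)/2`, `δ = B + (hH - B) mod N`, `u = (hH - δ)/N`, `ρ = h - r D ∈ [-N, N]`,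
`r' = r - u - δ`. `h' - r' D = ρ + u + δ N` (integers), `multichoose m e * e = multichoose m (e-1) *
(m + e - 1)` gives `hH = hj (m-1+e)/e ≤ (N/2) hj` (as `(e-2)(m-1) ≥ 0`, `N ≥ m + 1`).
(trace) `δ + N > B`. (A3): `r'D + δN + (N-1)D < h' + N` iff `ρ + u + N > (N-1)(N+1)`, true if
`u ≥ N²`; `u N = hH - δ ≥ (N+1)³ - (N-1)(N+2)/2 ≥ N³`. (A1): `h' - (r'-1) D = ρ + u + δN + D >
D (D-1)/2`. (A2), `e ≥ 3`: `r' D = h' - ρ - u - δ N ≥ h'' + N D` iff `hj ≥ ρ + u + δN + N(N+1)`;
`u + δN = hH/N + δ (N - 1/N)`, `δ ≤ (N-1)(N+2)/2`, so it suffices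
`hj/2 ≥ N + (N³+N²-3N-1+2/N)/2 + N(N+1)`. (A2), `e = 2`: `(n+1) r' ≥ M + n (n+1)`;
`(n+1)(h' - hH/N) - (N+1) M = M m (n-1)(2n+m+1)/(2N)`, so it suffices
`(n-1) hj (N+n+1)/N ≥ (n+1) (2N + N³ + N² - 3N - 1 + 2/N + 2n(N+1))`. -/
def NUM_stmt : Prop :=
  ∀ (m n e M hH h' h'' h : ℕ), 1 ≤ m → 1 ≤ n → 2 ≤ e → 1 ≤ M →
    hH = M * Nat.multichoose m e → h' = M * Nat.multichoose (m + 1) (e - 1) →
    h'' = M * Nat.multichoose (m + 1) (e - 2) → h = hH + h' →
    ((3 ≤ e ∧ (m + n + 1) ^ 3 ≤ M * Nat.multichoose m (e - 1)) ∨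
      (e = 2 ∧ (n + 1) * (m + n + 1) ^ 3 ≤ (n - 1) * (M * Nat.multichoose m (e - 1)))) →
    ∀ r : ℕ, (r = h / (m + n + 1) ∨ r = (h + (m + n)) / (m + n + 1)) →
    ∃ u δ r' : ℕ, r = u + δ + r' ∧ u * (m + n) + δ = hH ∧
      (m + n) * (m + n - 1) / 2 < δ + (m + n) ∧
      (1 ≤ r' → (r' - 1) * (m + n + 1) + (m + n + 1) * (m + n) / 2 < h') ∧
      (∀ D'' : ℕ, (3 ≤ e → D'' = m + n + 1) → (e = 2 → D'' = n + 1) → h'' / D'' + D'' - 1 ≤ r') ∧
      r' * (m + n + 1) + δ * (m + n) + (m + n - 1) * (m + n + 1) < h' + (m + n) ∧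
      h' - r' * (m + n + 1) - δ * (m + n) - u ≤ h - r * (m + n + 1)

/-- CRT (medium; uses: COR, DIM, NUM). The core in the coordinates of the problem, critical `r`.
`N = ∑ n i`. PROOF. `ι = Var n`, `κ = Fin k`, `c = Sigma.fst`, `z = ⟨j, 0⟩` (or the last variable).
Colour classes: `(univ.filter (c · = i)).card = n i + 1`, in `univ.erase z` the class of `j` has
`n j ≥ 1` elements. `Dk c univ d = N + 1`, `Dk c (univ.erase z) d = N` (all `d i ≥ 1`),
`Dk c univ (low (low d j) j) = N + 1` if `d j ≥ 3`, `= N - n j + 1` if `d j = 2`. Dimensions by DIM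
(`Nat.multichoose (n+1) d = (n + d).choose n`), so `hj n d j = M * multichoose (n j) (d j - 1)`.
NUM with `m = n j`, `n = N - n j`, `e = d j`, then COR. -/
def CRT_stmt : Prop :=
  ∀ (k : ℕ) (n d : Fin k → ℕ), 2 ≤ k → (∀ i, 1 ≤ n i) → (∀ i, 1 ≤ d i) → ∀ j : Fin k,
    ((3 ≤ d j ∧ (∑ i, n i + 1) ^ 3 ≤ hj n d j) ∨
      (d j = 2 ∧ (∑ i, n i - n j + 1) * (∑ i, n i + 1) ^ 3 ≤ (∑ i, n i - n j - 1) * hj n d j)) →
    ∀ r : ℕ, (r = finrank ℂ (MultiHom n d) / (∑ i, n i + 1) ∨
      r = (finrank ℂ (MultiHom n d) + ∑ i, n i) / (∑ i, n i + 1)) →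
    ∃ x : Fin r → Var n → ℂ,
      finrank ℂ ↥(Sng (Sigma.fst : Var n → Fin k) d x) ≤
        finrank ℂ (MultiHom n d) - r * (∑ i, n i + 1)

/-- MHS (short). `MultiHom n d = Sec Sigma.fst univ d`. -/
def MHS_stmt : Prop :=
  ∀ (k : ℕ) (n d : Fin k → ℕ), MultiHom n d = Sec (Sigma.fst : Var n → Fin k) Finset.univ d

/-- LOW (medium; uses: RKU, EUL, MHS). The expected dimension is a lower bound, for ALL points.
PROOF. `Sys n d p` is obtained from `MultiHom n d` by imposing at each `p l` the conditions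
`∇f(p l) = 0` and `f(p l) = 0`; the latter follows from the former by EUL (`k ≥ 1`, `d i ≥ 1`). The
rank of `f ↦ ∇f(p l)` is `≤ Dk = N + 1` (RKU with `A = B = univ`). -/
def LOW_stmt : Prop :=
  ∀ (k : ℕ) (n d : Fin k → ℕ), 1 ≤ k → (∀ i, 1 ≤ d i) → ∀ (r : ℕ) (p : Fin r → Var n → ℂ),
    finrank ℂ (MultiHom n d) - r * (∑ i, n i + 1) ≤ finrank ℂ (Sys n d p)

/-- SYS (short; uses: EUL, MHS). `Sys n d p = Sng Sigma.fst d p` if all `d i ≥ 1`, `k ≥ 1`. -/
def SYS_stmt : Prop :=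
  ∀ (k : ℕ) (n d : Fin k → ℕ), 1 ≤ k → (∀ i, 1 ≤ d i) → ∀ (r : ℕ) (p : Fin r → Var n → ℂ),
    Sys n d p = Sng (Sigma.fst : Var n → Fin k) d p

/-- GNF (medium; uses: LOW, SYS, MHS). One good `r`-tuple suffices for general.
PROOF. Choose a basis `b` of `MultiHom n d` (finite). `f ↦ (∂_v f(x l))_{l,v}` has at `x` rank
`≥ ρ = dim MultiHom - e`, `e = dim MultiHom - r(N+1)` (truncated): choose `ρ` basis-combinations and
`ρ` coordinates `(l,v)` with non zero minor at `x` (a matrix of rank `≥ ρ` has a non zero `ρ × ρ`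
minor). The minor is a polynomial `F` in the coordinates of the points: entries
`rename (fun v' => (l, v')) (pderiv v (b i)) ∈ MvPolynomial (Fin r × Var n) ℂ`. `F ≠ 0` as
`eval (x) F ≠ 0`. If `eval p F ≠ 0` the rank at `p` is `≥ ρ`, so `finrank (Sys n d p) ≤ e`, and
`≥ e` by LOW. -/
def GNF_stmt : Prop :=
  ∀ (k : ℕ) (n d : Fin k → ℕ), 1 ≤ k → (∀ i, 1 ≤ d i) → ∀ (r : ℕ) (x : Fin r → Var n → ℂ),
    finrank ℂ ↥(Sng (Sigma.fst : Var n → Fin k) d x) ≤
      finrank ℂ (MultiHom n d) - r * (∑ i, n i + 1) →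
    General n r (Independent n d)

/-- ALR (medium; uses: GNF, RKU, MHS). From the two critical `r` to all `r`.
PROOF. Let `h = finrank (MultiHom n d)`, `D = N + 1`, `r₀ = h / D`, `r₁ = (h + N) / D = ⌈h/D⌉`.
For `r ≤ r₀`: take the first `r` of the good `r₀` points `x`: `dim Sng(x|r) ≤ dim Sng(x) + (r₀ - r) D
≤ h - r₀ D + (r₀-r) D = h - r D` (each point lowers the dimension by at most `D`, RKU). For
`r ≥ r₁`: extend the good `r₁`-tuple arbitrarily: `Sng ≤ Sng(x) = 0` as `h - r₁ D ≤ 0`. There is no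
`r` strictly between. Then GNF. -/
def ALR_stmt : Prop :=
  ∀ (k : ℕ) (n d : Fin k → ℕ), 1 ≤ k → (∀ i, 1 ≤ d i) →
    (∀ r : ℕ, (r = finrank ℂ (MultiHom n d) / (∑ i, n i + 1) ∨
      r = (finrank ℂ (MultiHom n d) + ∑ i, n i) / (∑ i, n i + 1)) →
      ∃ x : Fin r → Var n → ℂ,
        finrank ℂ ↥(Sng (Sigma.fst : Var n → Fin k) d x) ≤
          finrank ℂ (MultiHom n d) - r * (∑ i, n i + 1)) →
    ¬ Special n d

/-- THR (assembly; uses: CRT, ALR). THE THRESHOLD THEOREM. -/
def THR_stmt : Prop :=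
  ∀ (k : ℕ) (n d : Fin k → ℕ), 2 ≤ k → (∀ i, 1 ≤ n i) → (∀ i, 1 ≤ d i) → ∀ j : Fin k,
    ((3 ≤ d j ∧ (∑ i, n i + 1) ^ 3 ≤ hj n d j) ∨
      (d j = 2 ∧ (∑ i, n i - n j + 1) * (∑ i, n i + 1) ^ 3 ≤ (∑ i, n i - n j - 1) * hj n d j)) →
    ¬ Special n d

theorem THR (hC : CRT_stmt) (hA : ALR_stmt) : THR_stmt := by
  intro k n d hk hn hd j hj
  exact hA k n d (by omega) hd (hC k n d hk hn hd j hj)

/-! ## Part E: the exceptional families and the finiteness theorem -/

/-- E20 (medium; uses: ALR, DIM, MHS, SYS, GNF). `O(2,d)` on `P^m × P^1` is special iff `d` is even.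
`k = 2`, `n = ![m, 1]`, `d = ![2, e]`, `m ≥ 1`, `e ≥ 1`.
PROOF. `h = (m+2 choose 2)(e+1)`, `D = m + 2`. ODD `e = 2b+1`: `h = D r`, `r = (m+1)(b+1)`; by ALR it
suffices to find `x : Fin r → ..` with `Sng = 0`. Take distinct `λ_{i,a} ∈ ℂ` (`i ≤ m`, `a ≤ b`) and
the points (`e_i`; `(1, λ_{i,a})`). `f = ∑_{j ≤ l} X_j X_l f_{jl}(s,t)`, `f_{jl}` binary forms of
degree `e`. Singular at (`e_i`; `(1,λ)`): `∂_{X_l} f = 0` gives `f_{il}(1,λ) = 0` for `l ≠ i` and
`2 f_{ii}(1,λ) = 0`; `∂_t f = 0` gives `∂_t f_{ii}(1,λ) = 0`. So `f_{ii}` has the `b+1` double zeros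
`λ_{i,a}`, `f_{il}` (`i ≠ l`) has the `2(b+1)` zeros `λ_{i,a}, λ_{l,a}`: degree `2b+1 < 2b+2`, so all
`f_{jl} = 0`.
EVEN `e = 2a`, `a ≥ 1`: `r = (a+1)(m+1) - 1 ≥ 1`. For ALL `p`: the space `O(1,a)` has dimension
`(m+1)(a+1) > r`, so there is `g ≠ 0` of multidegree `(1,a)` vanishing at all `p l`; `g²` is a non
zero element of `Sys n d p`. But `h - r D ≤ 0`: `2 r D = 2(a+1)(m+1)(m+2) - 2(m+2) ≥
(2a+1)(m+1)(m+2) = 2h` as `(m+1)(m+2) ≥ 2(m+2)`. So `Independent` fails for all `p` which are points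
and with `F(p) ≠ 0` (such `p` exist: `F * ∏ coordinates ≠ 0` does not vanish identically). -/
def E20_stmt : Prop :=
  ∀ m e : ℕ, 1 ≤ m → 1 ≤ e → (Special ![m, 1] ![2, e] ↔ Even e)

/-- E10 (medium; uses: ALR, DIM, MHS). `O(1,e)` on `P^m × P^1` is never special.
PROOF. `D = m + 2`, `h = (m+1)(e+1)`. It suffices (ALR) to give for every `r` a good `r`-tuple
(`Sng` of dimension `≤ h - r D`, truncated). Points (`e_{i mod (m+1)}`; `(1, λ_i)`), `i < r`,
distinct `λ_i`. `f = ∑_j X_j f_j(s,t)`, `f_j` binary of degree `e`. Singular at the `i`-th point: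
`∂_{X_l} f = f_l(1,λ_i) = 0` for all `l` and `∂_t f_{i mod (m+1)} (1, λ_i) = 0`. So `f_j` is divisible
by `∏_{i<r} (t - λ_i s) ∏_{i ≡ j} (t - λ_i s)`: dimension of `Sng` =
`∑_j (e + 1 - r - #{i < r : i ≡ j})_+`, the numbers `#{..}` differ by at most one, so all terms have
the same sign (or are zero) and the sum is `(h - r D)_+` (`∑_j (e+1-r-#) = (m+1)(e+1) - r(m+1) - r`). -/
def E10_stmt : Prop :=
  ∀ m e : ℕ, 1 ≤ m → 1 ≤ e → ¬ Special ![m, 1] ![1, e]

/-- E11 (LONG; uses: ALR, DIM, MHS, SYS). `O(1,1,e)` on `P^a × P^b × P^1`: exact criterion.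
`D = a + b + 2`, `h = (a+1)(b+1)(e+1)`. For `r`: `α = r / (a+1)`, `y₁ = r % (a+1)`, `x₁ = a+1-y₁`;
`β = r / (b+1)`, `y₂ = r % (b+1)`, `x₂ = b+1-y₂`. `h - r D = x₁x₂(e+1-α-β) + (x₁y₂+y₁x₂)(e-α-β) +
y₁y₂ (e-1-α-β)`.
PROOF. (→, contrapositive) Suppose no `r` satisfies the right side. By ALR it suffices to give for
every `r` a good `r`-tuple. Points (`e_{i mod (a+1)}`, `e_{i mod (b+1)}`, `(1,λ_i)`), `i < r`,
distinct `λ_i`. `f = ∑_{j,l} X_j Y_l f_{jl}(s,t)`. Singular at the `i`-th point: `f_{jl}(1,λ_i) = 0`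
if `j ≡ i` or `l ≡ i`, and `∂_t f_{jl}(1,λ_i) = 0` if both. So `f_{jl}` is divisible by
`ω_j η_l`, `ω_j = ∏_{i ≡ j mod (a+1)} (t - λ_i s)`, `η_l = ∏_{i ≡ l mod (b+1)} (t - λ_i s)`:
dimension `∑_{j,l} (e + 1 - deg ω_j - deg η_l)_+`; `deg ω_j = α + 1` for `y₁` of the `j`, `α` for
`x₁` of them, `deg η_l` likewise. The terms without `_+` sum to `h - r D`. All terms are `≥ 0` or all
are `≤ 0` unless `e = α + β` and `y₁ y₂ ≥ 1`, which is excluded.
(←) Let `r` satisfy the right side and take `r` maximal with `r/(a+1) + r/(b+1) = e` (and then it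
still is no multiple of `a+1` or `b+1`: between the given `r` and the maximal one there is no
multiple); maximality: `r + 1` is a multiple of `a+1` or of `b+1`; say `x₁ = 1` (the other case is
symmetric), `y₁ = a`. For ALL `p`: there is `g₁ ≠ 0` of multidegree `(1,0,α)` vanishing at all `p l`
(`(a+1)(α+1) - r = x₁ = 1 > 0`), and a space `G₂` of dimension `≥ (b+1)(β+1) - r = x₂` of polynomials
of multidegree `(0,1,β)` vanishing at all `p l`; `g₁ G₂ ⊆ Sys` has dimension `≥ x₂`, while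
`h - r D = x₁x₂ - y₁y₂ = x₂ - a y₂ < x₂` and `0 < x₂`. So `Independent` fails for all `p`; `r ≥ 1`. -/
def E11_stmt : Prop :=
  ∀ a b e : ℕ, 1 ≤ a → 1 ≤ b → 1 ≤ e →
    (Special ![a, b, 1] ![1, 1, e] ↔
      ∃ r : ℕ, ¬ (a + 1) ∣ r ∧ ¬ (b + 1) ∣ r ∧ r / (a + 1) + r / (b + 1) = e)

/-- FIN (medium; uses: THR). FINITENESS: for fixed `n` all but finitely many `d` (all `d i ≥ 1`)
outside the two families are not special.
PROOF. Let `N = ∑ n i`, `K = 3 (N+1)^3` and let `d` be special, outside the families, with some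
`d l > K + 1`; contradiction as follows (so all `d i ≤ K + 1`: finite). Choose `l` with `d l > K+1`.
Case 1: some `j ≠ l` with `d j ≥ 3`: `hj n d j ≥ (n l + d l).choose (n l) ≥ d l + 1 ≥ (N+1)^3`
(the other factors are `≥ 1`): THR (a). Case 2: some `j ≠ l` with `d j = 2`. If `N - n j ≥ 2`:
`(N - n j - 1) hj ≥ (N - n j - 1) (d l + 1)` and `(N - n j + 1) ≤ 3 (N - n j - 1)`: THR (b). If
`N - n j ≤ 1` then `k = 2`, `n l = 1`: second family. Case 3: `d i = 1` for all `i ≠ l`. If `n l = 1`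
this is the first family. If `n l ≥ 2`: `hj n d l ≥ (n l + d l - 2).choose (n l - 1) ≥ d l - 1 ≥
(N+1)^3` (`choose (a + b) a ≥ b + 1` for `a ≥ 1`): THR (a) with `j = l`. -/
def FIN_stmt : Prop :=
  ∀ (k : ℕ) (n : Fin k → ℕ), 2 ≤ k → (∀ i, 1 ≤ n i) →
    {d : Fin k → ℕ | (∀ i, 1 ≤ d i) ∧ Special n d ∧
      ¬ (∃ l, n l = 1 ∧ ∀ i, i ≠ l → d i = 1) ∧
      ¬ (k = 2 ∧ ∃ l, n l = 1 ∧ ∀ i, i ≠ l → d i = 2)}.Finite

end Pool.Agent.SV
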