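import Pool.Agent.helper80.SV.Spec

/-!
# Project sv: (MP_b5a345_ag): second specification (the final statements)
-/

set_option autoImplicit false

namespace Pool.Agent.SV

open MvPolynomial Module

/-- The explicit infinite families for two and three factors.
`k = 2`: one factor is `P^1` and the degree on the other factor is `2`, the degree on `P^1` is even.
`k = 3`: one factor `P^1`, the degrees on the two other factors `P^a, P^b` are `1`, and the degree on
`P^1` is `⌊r/(a+1)⌋ + ⌊r/(b+1)⌋` for some `r` divisible neither by `a+1` nor by `b+1`. -/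
def Crit {k : ℕ} (n d : Fin k → ℕ) : Prop :=
  (k = 2 ∧ ∃ l, n l = 1 ∧ (∀ i, i ≠ l → d i = 2) ∧ Even (d l)) ∨
  (k = 3 ∧ ∃ l, n l = 1 ∧ (∀ i, i ≠ l → d i = 1) ∧
    ∃ r : ℕ, (∀ i, i ≠ l → ¬ (n i + 1) ∣ r) ∧
      ∑ i ∈ Finset.univ.erase l, r / (n i + 1) = d l)

/-- PRM (medium). Permuting the factors.
PROOF. The renaming `⟨i,j⟩ ↦ ⟨σ i, j⟩` is an equivalence `Var (n ∘ σ) ≃ Var n` (`Equiv.sigmaCongrLeft`
or `Sigma.map`); `MvPolynomial.renameEquiv` maps `MultiHom (n ∘ σ) (d ∘ σ)` onto `MultiHom n d` and
`Sys (n ∘ σ) (d ∘ σ) p` onto `Sys n d p'` with `p' l = p l ∘ e.symm` (`eval` and `pderiv` commute with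
renaming by an equivalence); `∑ (n ∘ σ) i = ∑ n i`. So `Independent` corresponds to `Independent`, and
`General` to `General` (rename the polynomial `F`). It suffices to prove one implication for all
`σ` (use `σ⁻¹` for the other one). -/
def PRM_stmt : Prop :=
  ∀ (k : ℕ) (σ : Equiv.Perm (Fin k)) (n d : Fin k → ℕ),
    Special (n ∘ σ) (d ∘ σ) ↔ Special n d

/-- K23 (medium; uses: FIN, E20, E10, E11, PRM). Two or three factors: for fixed `n` all but finitely
many `O(d)`, `d i ≥ 1`, are special exactly according to the explicit list.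
PROOF. The set is contained in the finite set of FIN: let `d i ≥ 1`, `¬ (Special n d ↔ Crit n d)`.
(k = 2) If some `l` has `n l = 1` and `d i = 1` for `i ≠ l`: by PRM we may assume that `l` is the last
index (`n = ![m,1]`, `d = ![1,e]`), E10: not special; `Crit` is false: `Crit` would need `l'` with
`d i = 2` for `i ≠ l'`: `l' = l` contradicts `d i = 1`, and `l' ≠ l` needs `Even (d l')`, `d l' = 1`.
If some `l` has `n l = 1` and `d i = 2` for `i ≠ l`: PRM and E20: `Special ↔ Even (d l)`, and
`Crit ↔ Even (d l)` (another `l' ≠ l` in `Crit` gives `d l = 2`). Otherwise `Crit` is false, so `d` is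
special and in neither family: FIN.
(k = 3) If some `l` has `n l = 1` and `d i = 1` for `i ≠ l`: by PRM `n = ![a,b,1]`, `d = ![1,1,e]`,
E11: special iff the arithmetic condition for `l` holds, so `Special → Crit`; conversely if `Crit`
holds for some `l'` then PRM and E11 for `l'` give `Special`. Otherwise `Crit` is false and FIN. -/
def K23_stmt : Prop :=
  ∀ (k : ℕ) (n : Fin k → ℕ), (k = 2 ∨ k = 3) → (∀ i, 1 ≤ n i) →
    {d : Fin k → ℕ | (∀ i, 1 ≤ d i) ∧ ¬ (Special n d ↔ Crit n d)}.Finite

end Pool.Agent.SV
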